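import Pool.Agent.H64.SL.Stm

set_option autoImplicit false

/-! # Stub SL-AREA (helper83, after `H7/SZ/AREA.lean` of helper69): the area inequality for the `j`-th
Taylor coefficient -/

namespace Pool.Agent.H64.SL

open Metric Set Filter Topology
open Pool.Agent.W677.Mar
open Pool.Agent.H33R3.Bom (J)
open Pool.Agent.H64.CX (bt rr TP TN)
open Pool.Agent.H7.CY (ej laurent fibre)
open Pool.Agent.H7.SZ (Sc Se)

namespace AREAaux

/-- the Laurent coefficients of nonnegative index -/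
noncomputable def cc (α : ℂ) (a q : ℕ) (ν : ℕ → ℕ → ℂ) (j i : ℕ) : ℂ :=
  if i % q = a then TP α ν (i / q) (i / q + j) else 0

/-- the Laurent coefficients of negative index -/
noncomputable def dd (α : ℂ) (a q : ℕ) (ν : ℕ → ℕ → ℂ) (j i : ℕ) : ℂ :=
  if q ∣ i + a ∧ (i + a) / q ≤ j then TN α ν ((i + a) / q) (j - (i + a) / q) else 0

theorem cc_odd (α : ℂ) {a q : ℕ} (haq : a < q) (ν : ℕ → ℕ → ℂ) (j n : ℕ) :
    cc α a q ν j (q * n + a) = TP α ν n (n + j) := by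
  have h1 : (q * n + a) % q = a := by rw [Nat.mul_add_mod, Nat.mod_eq_of_lt haq]
  have h2 : (q * n + a) / q = n := by
    rw [Nat.mul_add_div (by omega), Nat.div_eq_of_lt haq, add_zero]
  unfold cc
  rw [if_pos h1, h2]

theorem le_mul {a q k : ℕ} (haq : a < q) (hk : 1 ≤ k) : a < q * k :=
  lt_of_lt_of_le haq (Nat.le_mul_of_pos_right q hk)

/-- the support of `dd` -/
def DD (a q j : ℕ) : Finset ℕ := (Finset.Icc 1 j).image fun k => q * k - a

theorem dd_mem (α : ℂ) {a q : ℕ} (haq : a < q) {ν : ℕ → ℕ → ℂ} {j k : ℕ}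
    (h : k ∈ Finset.Icc 1 j) : dd α a q ν j (q * k - a) = TN α ν k (j - k) := by
  rw [Finset.mem_Icc] at h
  have e : q * k - a + a = q * k := Nat.sub_add_cancel (le_mul haq h.1).le
  have e2 : q * k / q = k := Nat.mul_div_cancel_left k (by omega)
  unfold dd
  rw [e, e2, if_pos ⟨dvd_mul_right q k, h.2⟩]

theorem dd_notMem (α : ℂ) {a q : ℕ} (ha : 1 ≤ a) {ν : ℕ → ℕ → ℂ} {j i : ℕ}
    (h : i ∉ DD a q j) : dd α a q ν j i = 0 := by
  unfold dd
  rw [if_neg]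
  rintro ⟨h1, h2⟩
  apply h
  unfold DD
  rw [Finset.mem_image]
  have h3 : q * ((i + a) / q) = i + a := Nat.mul_div_cancel' h1
  refine ⟨(i + a) / q, ?_, ?_⟩
  · rw [Finset.mem_Icc]
    refine ⟨?_, h2⟩
    rcases Nat.eq_zero_or_pos ((i + a) / q) with h4 | h4
    · rw [h4, mul_zero] at h3
      omega
    · exact h4
  · rw [h3]
    omega

theorem sum_DD {a q : ℕ} (haq : a < q) (j : ℕ) {E : Type} [AddCommMonoid E] (g : ℕ → E) :
    ∑ i ∈ DD a q j, g i = ∑ k ∈ Finset.Icc 1 j, g (q * k - a) := by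
  unfold DD
  rw [Finset.sum_image]
  intro x hx y hy hxy
  rw [Finset.mem_coe, Finset.mem_Icc] at hx hy
  simp only at hxy
  have h1 := le_mul haq hx.1
  have h2 := le_mul haq hy.1
  have h3 : q * x = q * y := by omega
  exact Nat.eq_of_mul_eq_mul_left (by omega) h3

theorem dd_bound (α : ℂ) {a : ℕ} (q : ℕ) (ha : 1 ≤ a) (ν : ℕ → ℕ → ℂ) (j : ℕ) {r : ℝ} (hr : 0 < r) :
    ∃ C : ℝ, ∀ k, ‖dd α a q ν j k‖ ≤ C * r ^ k := by
  refine ⟨∑ k ∈ DD a q j, ‖dd α a q ν j k‖ / r ^ k, fun k => ?_⟩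
  have hC : 0 ≤ ∑ k ∈ DD a q j, ‖dd α a q ν j k‖ / r ^ k := by positivity
  by_cases h : k ∈ DD a q j
  · have h1 := Finset.single_le_sum (f := fun k => ‖dd α a q ν j k‖ / r ^ k)
      (fun i _ => by positivity) h
    rw [← div_le_iff₀ (by positivity)]
    exact h1
  · rw [dd_notMem α ha h, norm_zero]
    positivity

theorem cc_even (α : ℂ) {a q : ℕ} {ν : ℕ → ℕ → ℂ} {j i : ℕ}
    (h : i ∉ Set.range (fun n : ℕ => q * n + a)) : cc α a q ν j i = 0 := by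
  unfold cc
  rw [if_neg]
  intro h1
  refine h ⟨i / q, ?_⟩
  simp only
  have := Nat.div_add_mod i q
  omega

theorem odd_inj {q : ℕ} (a : ℕ) (hq : 0 < q) : Function.Injective (fun n : ℕ => q * n + a) := by
  intro x y hxy
  simp only at hxy
  have h3 : q * x = q * y := by omega
  exact Nat.eq_of_mul_eq_mul_left hq h3

theorem dd_zero (α : ℂ) {a q : ℕ} (ha : 1 ≤ a) (haq : a < q) (ν : ℕ → ℕ → ℂ) (j : ℕ) :
    dd α a q ν j 0 = 0 := by
  unfold dd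
  rw [if_neg]
  rintro ⟨h1, -⟩
  rw [zero_add] at h1
  have := Nat.le_of_dvd (by omega) h1
  omega

/-- the inequality on circles -/
theorem area_R (α : ℂ) {a q : ℕ} (ha : 1 ≤ a) (haq : a < q) {K : ℂ × ℂ → ℂ} {ν : ℕ → ℕ → ℂ}
    (hG : IsG0 fun v => (K (0, v ^ q))⁻¹)
    (hν : ∀ ζ ∈ ball (0 : ℂ) 1, ∀ z ∈ ball (0 : ℂ) 1,
      HasSum (fun p : ℕ × ℕ => ν p.1 p.2 * ζ ^ p.1 * z ^ p.2) (K (ζ, z) ^ a))
    (j N : ℕ) (P : Polynomial ℂ)
    (hP : ∀ v : ℂ, v ≠ 0 → ‖v‖ < 1 → v ^ a * ej α ν j (v ^ q) = P.eval ((K (0, v ^ q))⁻¹ / v))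
    {R : ℝ} (hR0 : 0 < R) (hR1 : R < 1) :
    ∑ n ∈ Finset.range N, ((q : ℝ) * n + a) * ‖TP α ν n (n + j)‖ ^ 2 * R ^ (2 * (q * n + a)) ≤
      ∑ k ∈ Finset.Icc 1 j, ((q : ℝ) * k - a) * ‖TN α ν k (j - k)‖ ^ 2 *
        (R⁻¹) ^ (2 * (q * k - a)) := by
  have hq0 : q ≠ 0 := by omega
  have hs := (fibre (K := fun ζ z => K (ζ, z) ^ a) hν).2
  have hv2 : ∀ v : ℂ, ‖v‖ < 1 → v ^ q ∈ ball (0 : ℂ) 1 := by
    intro v hv
    rw [mem_ball_zero_iff, norm_pow]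
    exact pow_lt_one₀ (norm_nonneg _) hv hq0
  have hL : ∀ v : ℂ, v ≠ 0 → ‖v‖ < 1 → HasSum (fun n : ℕ => TP α ν n (n + j) * v ^ (q * n + a))
      (v ^ a * ej α ν j (v ^ q) -
        ∑ k ∈ Finset.Icc 1 j, TN α ν k (j - k) * (v⁻¹) ^ (q * k - a)) := by
    intro v hv0 hv1
    have h1 := (laurent α (pow_ne_zero q hv0) (fun i => hs i (v ^ q) (hv2 v hv1)) j).mul_left
      (v ^ a)
    rw [mul_sub, Finset.mul_sum] at h1
    have e1 : ∑ k ∈ Finset.Icc 1 j, v ^ a * (TN α ν k (j - k) * ((v ^ q)⁻¹) ^ k) =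
        ∑ k ∈ Finset.Icc 1 j, TN α ν k (j - k) * (v⁻¹) ^ (q * k - a) := by
      apply Finset.sum_congr rfl
      intro k hk
      rw [Finset.mem_Icc] at hk
      have e : q * k = (q * k - a) + a := (Nat.sub_add_cancel (le_mul haq hk.1).le).symm
      have q1 : ((v ^ q)⁻¹) ^ k = (v⁻¹) ^ (q * k - a) * (v⁻¹) ^ a := by
        rw [← inv_pow, ← pow_mul, ← pow_add, ← e]
      have q2 : v ^ a * (v⁻¹) ^ a = 1 := by
        rw [← mul_pow, mul_inv_cancel₀ hv0, one_pow]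
      rw [q1]
      linear_combination (TN α ν k (j - k) * (v⁻¹) ^ (q * k - a)) * q2
    rw [e1] at h1
    refine h1.congr_fun ?_ |> fun h => h
    intro n
    rw [pow_add, pow_mul]
    ring
  set Φ : ℂ → ℂ := fun v => ∑' n : ℕ, TP α ν n (n + j) * v ^ (q * n + a) with hΦ
  have hΦs : ∀ v ∈ ball (0 : ℂ) 1, HasSum (fun i : ℕ => cc α a q ν j i * v ^ i) (Φ v) := by
    intro v hv
    rw [← (odd_inj a (by omega : 0 < q)).hasSum_iff (f := fun i : ℕ => cc α a q ν j i * v ^ i)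
      (fun i hi => by rw [cc_even α hi, zero_mul])]
    have e : (fun i : ℕ => cc α a q ν j i * v ^ i) ∘ (fun n : ℕ => q * n + a) =
        fun n : ℕ => TP α ν n (n + j) * v ^ (q * n + a) := by
      funext n
      simp only [Function.comp]
      rw [cc_odd α haq]
    rw [e]
    by_cases hv0 : v = 0
    · subst hv0
      have e0 : (fun n : ℕ => TP α ν n (n + j) * (0 : ℂ) ^ (q * n + a)) = fun _ => 0 := by
        funext n
        rw [zero_pow (by omega), mul_zero]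
      rw [hΦ]
      simp only [e0, tsum_zero]
      exact hasSum_zero
    · exact (hL v hv0 (mem_ball_zero_iff.1 hv)).summable.hasSum
  have hd : ∀ v : ℂ, ∑' i : ℕ, dd α a q ν j i * (v⁻¹) ^ i =
      ∑ k ∈ Finset.Icc 1 j, TN α ν k (j - k) * (v⁻¹) ^ (q * k - a) := by
    intro v
    rw [tsum_eq_sum (s := DD a q j) (fun k hk => by rw [dd_notMem α ha hk, zero_mul]), sum_DD haq]
    exact Finset.sum_congr rfl fun k hk => by rw [dd_mem α haq hk]
  have heq : ∀ v : ℂ, v ≠ 0 → ‖v‖ < 1 →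
      Φ v + ∑' i : ℕ, dd α a q ν j i * (v⁻¹) ^ i = P.eval ((K (0, v ^ q))⁻¹ / v) := by
    intro v hv0 hv1
    rw [hd, ← hP v hv0 hv1]
    have h1 := (hL v hv0 hv1).tsum_eq
    rw [hΦ]
    simp only
    rw [h1]
    ring
  obtain ⟨C, hC⟩ := dd_bound α q ha ν j (half_pos hR0)
  obtain ⟨g1, g2, g3⟩ := Pool.Agent.H643R3.BomC4.taskC4 R (R / 2) C (cc α a q ν j)
    (dd α a q ν j) Φ (half_pos hR0) (half_lt_self hR0) hR1 (dd_zero α ha haq ν j) hΦs hC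
  have g4 := t1 _ hG P R hR0 hR1
  have hnc : ∀ t : ℝ, ‖circleMap 0 R t‖ = R := fun t => by simp [abs_of_pos hR0]
  have hAo : IsOpen {z : ℂ | 0 < ‖z‖ ∧ ‖z‖ < 1} :=
    (isOpen_lt continuous_const continuous_norm).inter (isOpen_lt continuous_norm continuous_const)
  have hJ : J R (fun z => Φ z + ∑' k : ℕ, dd α a q ν j k * (z⁻¹) ^ k)
      (deriv fun z => Φ z + ∑' k : ℕ, dd α a q ν j k * (z⁻¹) ^ k) =
      J R (fun z => P.eval ((K (0, z ^ q))⁻¹ / z)) (deriv fun z => P.eval ((K (0, z ^ q))⁻¹ / z)) := by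
    unfold J
    congr 1
    apply intervalIntegral.integral_congr
    intro t _
    have hm : 0 < ‖circleMap 0 R t‖ ∧ ‖circleMap 0 R t‖ < 1 := by
      rw [hnc]; exact ⟨hR0, hR1⟩
    have hev : (fun z => Φ z + ∑' k : ℕ, dd α a q ν j k * (z⁻¹) ^ k) =ᶠ[𝓝 (circleMap 0 R t)]
        fun z => P.eval ((K (0, z ^ q))⁻¹ / z) := by
      filter_upwards [hAo.mem_nhds hm] with z hz using heq z (norm_pos_iff.1 hz.1) hz.2
    show (starRingEnd ℂ) (Φ (circleMap 0 R t) +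
          ∑' k : ℕ, dd α a q ν j k * ((circleMap 0 R t)⁻¹) ^ k) *
        (circleMap 0 R t * deriv (fun z => Φ z + ∑' k : ℕ, dd α a q ν j k * (z⁻¹) ^ k)
          (circleMap 0 R t)) = _
    rw [hev.deriv_eq, heq _ (norm_pos_iff.1 hm.1) hm.2]
  rw [← hJ, g3] at g4
  have hpi : 0 < 2 * Real.pi := by positivity
  have g5 : ∑' k : ℕ, (k : ℝ) * ‖cc α a q ν j k‖ ^ 2 * R ^ (2 * k) ≤
      ∑' k : ℕ, (k : ℝ) * ‖dd α a q ν j k‖ ^ 2 * (R⁻¹) ^ (2 * k) := by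
    by_contra hcon
    push Not at hcon
    have := mul_pos hpi (sub_pos.2 hcon)
    linarith
  have g6 : ∑' k : ℕ, (k : ℝ) * ‖dd α a q ν j k‖ ^ 2 * (R⁻¹) ^ (2 * k) =
      ∑ k ∈ Finset.Icc 1 j, ((q : ℝ) * k - a) * ‖TN α ν k (j - k)‖ ^ 2 *
        (R⁻¹) ^ (2 * (q * k - a)) := by
    rw [tsum_eq_sum (s := DD a q j) (fun k hk => by rw [dd_notMem α ha hk]; simp), sum_DD haq]
    refine Finset.sum_congr rfl fun k hk => ?_
    rw [dd_mem α haq hk]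
    rw [Finset.mem_Icc] at hk
    have e : ((q * k - a : ℕ) : ℝ) = (q : ℝ) * k - a := by
      rw [Nat.cast_sub (le_mul haq hk.1).le]
      push_cast
      ring
    rw [e]
  rw [← g6]
  refine le_trans ?_ g5
  have g7 := g1.sum_le_tsum ((Finset.range N).image fun n : ℕ => q * n + a)
    (fun k _ => by positivity)
  rw [Finset.sum_image (fun x _ y _ hxy => odd_inj a (by omega : 0 < q) hxy)] at g7
  refine le_trans (le_of_eq ?_) g7
  refine Finset.sum_congr rfl fun n _ => ?_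
  rw [cc_odd α haq]
  push_cast
  ring

end AREAaux

open AREAaux in
theorem area : S_AREA := by
  intro hPOL hIG a q F K ν ha haq hF hK hS j N hj
  obtain ⟨P, hP⟩ := hPOL a q F K ν ha haq hF hK hS j hj
  have hG := hIG q F K (by omega) hF hK
  have hq0 : (0 : ℝ) < q := by exact_mod_cast (by omega : 0 < q)
  obtain ⟨α, hα⟩ : ∃ α : ℂ, α = -(sx a q : ℂ) := ⟨_, rfl⟩
  rw [← hα] at hP ⊢
  have hA : Tendsto (fun R : ℝ => ∑ n ∈ Finset.range N, ((q : ℝ) * n + a) *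
      ‖TP α ν n (n + j)‖ ^ 2 * R ^ (2 * (q * n + a))) (𝓝[<] 1)
      (𝓝 (∑ n ∈ Finset.range N, ((q : ℝ) * n + a) * ‖TP α ν n (n + j)‖ ^ 2)) := by
    have hcont : Continuous (fun R : ℝ => ∑ n ∈ Finset.range N, ((q : ℝ) * n + a) *
      ‖TP α ν n (n + j)‖ ^ 2 * R ^ (2 * (q * n + a))) := by fun_prop
    have := (hcont.tendsto 1).mono_left (nhdsWithin_le_nhds (s := Iio 1))
    simpa using this
  have hB : Tendsto (fun R : ℝ => ∑ k ∈ Finset.Icc 1 j, ((q : ℝ) * k - a) *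
      ‖TN α ν k (j - k)‖ ^ 2 * (R⁻¹) ^ (2 * (q * k - a))) (𝓝[<] 1)
      (𝓝 (∑ k ∈ Finset.Icc 1 j, ((q : ℝ) * k - a) * ‖TN α ν k (j - k)‖ ^ 2)) := by
    have hinv : Tendsto (fun R : ℝ => R⁻¹) (𝓝[<] 1) (𝓝 1) := by
      have := (continuousAt_inv₀ (one_ne_zero (α := ℝ))).tendsto.mono_left
        (nhdsWithin_le_nhds (s := Iio 1))
      simpa using this
    have := tendsto_finsetSum (Finset.Icc 1 j) fun k _ =>
      (hinv.pow (2 * (q * k - a))).const_mul (((q : ℝ) * k - a) * ‖TN α ν k (j - k)‖ ^ 2)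
    simpa using this
  have hmain : ∑ n ∈ Finset.range N, ((q : ℝ) * n + a) * ‖TP α ν n (n + j)‖ ^ 2 ≤
      ∑ k ∈ Finset.Icc 1 j, ((q : ℝ) * k - a) * ‖TN α ν k (j - k)‖ ^ 2 := by
    refine le_of_tendsto_of_tendsto hA hB ?_
    have hIoo : Ioo (0 : ℝ) 1 ∈ 𝓝[<] (1 : ℝ) := Ioo_mem_nhdsLT one_pos
    filter_upwards [hIoo] with R hR
    exact area_R α ha haq hG hS.2 j N P hP hR.1 hR.2
  have e1 : ∑ n ∈ Finset.range N, ((q : ℝ) * n + a) * ‖TP α ν n (n + j)‖ ^ 2 =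
      q * ∑ n ∈ Finset.range N, ((n : ℝ) + sx a q) * ‖TP α ν n (n + j)‖ ^ 2 := by
    rw [Finset.mul_sum]
    refine Finset.sum_congr rfl fun n _ => ?_
    unfold sx
    field_simp
  have e2 : ∑ k ∈ Finset.Icc 1 j, ((q : ℝ) * k - a) * ‖TN α ν k (j - k)‖ ^ 2 =
      q * ∑ k ∈ Finset.Icc 1 j, ((k : ℝ) - sx a q) * ‖TN α ν k (j - k)‖ ^ 2 := by
    rw [Finset.mul_sum]
    refine Finset.sum_congr rfl fun n _ => ?_
    unfold sx
    field_simp
  rw [e1, e2] at hmain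
  exact le_of_mul_le_mul_left hmain hq0

end Pool.Agent.H64.SL
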