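import Pool.Agent.H64.SL.Stm

set_option autoImplicit false

/-! # SL-IG: the root transform (from SZ-IG, helper29) -/

namespace Pool.Agent.H64.SL

open Metric Set Filter Topology
open Pool.Agent.W677.Mar (IsG0)

theorem ig : S_IG := by
  intro q F K hq hF hK
  have hq0 : q ≠ 0 := by omega
  have hz0 : (0 : ℂ) ∈ ball (0 : ℂ) 1 := mem_ball_self one_pos
  have hsq : ∀ v ∈ ball (0 : ℂ) 1, v ^ q ∈ ball (0 : ℂ) 1 := by
    intro v hv
    rw [mem_ball_zero_iff] at hv ⊢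
    rw [norm_pow]
    exact pow_lt_one₀ (norm_nonneg v) hv hq0
  have hKF : ∀ z ∈ ball (0 : ℂ) 1, K (0, z) ^ q * z = F z := by
    intro z hz
    have h := hK.pow 0 hz0 z hz
    rwa [sub_zero, hF.zero, sub_zero] at h
  have hne : ∀ z ∈ ball (0 : ℂ) 1, K (0, z) ≠ 0 := by
    intro z hz h0
    by_cases h : z = 0
    · rw [h, hK.one] at h0
      exact one_ne_zero h0
    · have h1 := hKF z hz
      rw [h0, zero_pow hq0, zero_mul] at h1
      exact h (hF.inj hz hz0 (by rw [hF.zero, ← h1]))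
  refine ⟨?_, ?_, ?_⟩
  · have h1 : DifferentiableOn ℂ (fun v : ℂ => K (0, v ^ q)) (ball 0 1) := by
      have h2 : DifferentiableOn ℂ (fun v : ℂ => ((0 : ℂ), v ^ q)) (ball 0 1) :=
        ((differentiable_const (0 : ℂ)).prodMk (differentiable_id.pow q)).differentiableOn
      exact hK.diff.comp h2 (fun v hv => mk_mem_prod hz0 (hsq v hv))
    exact h1.inv (fun v hv => hne _ (hsq v hv))
  · show (K (0, 0 ^ q))⁻¹ = 1
    rw [zero_pow hq0, hK.one, inv_one]
  · rintro u ⟨hu, hu0⟩ v ⟨hv, hv0⟩ h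
    have h1 : K (0, u ^ q) * u = K (0, v ^ q) * v := by
      have h2 : ((K (0, u ^ q))⁻¹ / u)⁻¹ = ((K (0, v ^ q))⁻¹ / v)⁻¹ := congrArg _ h
      rw [inv_div, inv_div, div_inv_eq_mul, div_inv_eq_mul] at h2
      rw [mul_comm, h2, mul_comm]
    have h3 : F (u ^ q) = F (v ^ q) := by
      rw [← hKF _ (hsq u hu), ← hKF _ (hsq v hv), ← mul_pow, ← mul_pow, h1]
    have h4 : u ^ q = v ^ q := hF.inj (hsq u hu) (hsq v hv) h3
    rw [h4] at h1
    exact mul_left_cancel₀ (hne _ (hsq v hv)) h1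

end Pool.Agent.H64.SL
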