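import Pool.Agent.H64.SL.Stm
import Pool.Agent.H64.CX.AREA

set_option autoImplicit false

/-! # SL-POL: the Taylor coefficients in `ζ` are polynomials in `1 / (v K (0, v^q))` -/

namespace Pool.Agent.H64.SL

open Metric Set Filter Topology
open Pool.Agent.W5h41.MA (cf cf_hasSum cf_deriv slit)
open Pool.Agent.H64.CX (bt rr TP TN)
open Pool.Agent.H64.CX.AREA (pw_hasSum)
open Pool.Agent.H7.CY (ej hasSum_cauchy ser_unique fibre)
open Pool.Agent.H7.SZ (Sc Se)

namespace POL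

variable {F : ℂ → ℂ} {K : ℂ × ℂ → ℂ} {ν : ℕ → ℕ → ℂ} {a q : ℕ}

theorem hs_congr {f g : ℕ → ℂ} {a : ℂ} (h : HasSum f a) (e : ∀ n, g n = f n) : HasSum g a := by
  rw [show g = f from funext e]
  exact h

/-- the exponent, as a complex number -/
noncomputable def al (a q : ℕ) : ℂ := -(sx a q : ℂ)

theorem al_mul (hq : 0 < q) : (q : ℂ) * -al a q = a := by
  have : (q : ℂ) ≠ 0 := by exact_mod_cast hq.ne'
  unfold al sx
  push_cast
  field_simp

/-- the function `K (s, z) ^ a (1 - s / z) ^ (a / q)` -/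
noncomputable def G (a q : ℕ) (K : ℂ × ℂ → ℂ) (z s : ℂ) : ℂ :=
  K (s, z) ^ a * Complex.exp (-al a q * Complex.log (1 - s * z⁻¹))

/-- its power series in `s` -/
theorem ej_hasSum (hν : Se (fun p => K p ^ a) ν)
    {z : ℂ} (hz1 : ‖z‖ < 1) {ζ : ℂ} (hζ : ζ ∈ ball (0 : ℂ) ‖z‖) :
    HasSum (fun j : ℕ => ej (al a q) ν j z * ζ ^ j) (G a q K z ζ) := by
  have hζn : ‖ζ‖ < ‖z‖ := mem_ball_zero_iff.1 hζ
  have hz0 : 0 < ‖z‖ := (norm_nonneg _).trans_lt hζn
  have hx : ‖ζ * z⁻¹‖ < 1 := by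
    rw [norm_mul, norm_inv, ← div_eq_mul_inv, div_lt_one hz0]
    exact hζn
  have h1 : HasSum (fun a : ℕ => (∑' b : ℕ, ν a b * z ^ b) * ζ ^ a) (K (ζ, z) ^ a) :=
    (fibre (K := fun ζ z => K (ζ, z) ^ a) hν.2).1 ζ
    (mem_ball_zero_iff.2 (hζn.trans hz1)) z (mem_ball_zero_iff.2 hz1)
  have h2 := pw_hasSum (al a q) hx
  have h3 : HasSum (fun j : ℕ => (bt (al a q) j * (z⁻¹) ^ j) * ζ ^ j)
      (Complex.exp (-al a q * Complex.log (1 - ζ * z⁻¹))) := by
    refine hs_congr h2 ?_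
    intro j
    rw [mul_pow]
    ring
  unfold ej G
  exact hasSum_cauchy (a := fun i => ∑' b : ℕ, ν i b * z ^ b)
    (b := fun n => bt (al a q) n * (z⁻¹) ^ n) h1 h3

theorem G_pow (hq : 0 < q) (HK : Kq q F K) {z : ℂ} (hz0 : z ≠ 0) (hz1 : ‖z‖ < 1) {ζ : ℂ}
    (hζ : ζ ∈ ball (0 : ℂ) ‖z‖) : G a q K z ζ ^ q = ((F z - F ζ) * z⁻¹) ^ a := by
  have hζn : ‖ζ‖ < ‖z‖ := mem_ball_zero_iff.1 hζ
  have hs := slit hζn
  have h1 := HK.pow ζ (mem_ball_zero_iff.2 (hζn.trans hz1)) z (mem_ball_zero_iff.2 hz1)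
  unfold G
  rw [mul_pow, ← Complex.exp_nat_mul]
  have h2 : ((q : ℕ) : ℂ) * (-al a q * Complex.log (1 - ζ * z⁻¹)) =
      (a : ℕ) * Complex.log (1 - ζ * z⁻¹) := by
    rw [← mul_assoc, al_mul hq]
  rw [h2, Complex.exp_nat_mul, Complex.exp_log (Complex.slitPlane_ne_zero hs), ← h1, ← pow_mul,
    mul_comm a q, pow_mul, ← mul_pow]
  congr 1
  field_simp

theorem G_diff (HK : Kq q F K) {z : ℂ} (hz1 : ‖z‖ < 1) {ζ : ℂ}
    (hζ : ζ ∈ ball (0 : ℂ) ‖z‖) : DifferentiableAt ℂ (G a q K z) ζ := by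
  have hζn : ‖ζ‖ < ‖z‖ := mem_ball_zero_iff.1 hζ
  have hzb : z ∈ ball (0 : ℂ) 1 := mem_ball_zero_iff.2 hz1
  have hζb : ζ ∈ ball (0 : ℂ) 1 := mem_ball_zero_iff.2 (hζn.trans hz1)
  have h1 : DifferentiableAt ℂ K (ζ, z) :=
    HK.diff.differentiableAt ((isOpen_ball.prod isOpen_ball).mem_nhds (Set.mk_mem_prod hζb hzb))
  have h2 : DifferentiableAt ℂ (fun s : ℂ => K (s, z)) ζ :=
    DifferentiableAt.comp (f := fun s : ℂ => (s, z)) ζ h1
      (differentiableAt_id.prodMk (differentiableAt_const z))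
  have h3 : DifferentiableAt ℂ (fun s : ℂ => K (s, z) ^ a) ζ := h2.pow a
  unfold G
  apply h3.mul
  apply DifferentiableAt.cexp
  apply DifferentiableAt.const_mul
  apply DifferentiableAt.clog
  · exact (differentiableAt_id.mul_const _).const_sub 1
  · exact slit hζn

/-- the differential equation -/
theorem ode (hq : 0 < q) (S : Sc F) (HK : Kq q F K) {z : ℂ} (hz0 : z ≠ 0) (hz1 : ‖z‖ < 1) {ζ : ℂ}
    (hζ : ζ ∈ ball (0 : ℂ) ‖z‖) :
    (F z - F ζ) * deriv (G a q K z) ζ = al a q * (deriv F ζ * G a q K z ζ) := by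
  have hζn : ‖ζ‖ < ‖z‖ := mem_ball_zero_iff.1 hζ
  have hζb : ζ ∈ ball (0 : ℂ) 1 := mem_ball_zero_iff.2 (hζn.trans hz1)
  have hzb : z ∈ ball (0 : ℂ) 1 := mem_ball_zero_iff.2 hz1
  have h1 := (G_diff (a := a) HK hz1 hζ).hasDerivAt.pow q
  have h3 : HasDerivAt (fun s => (F z - F s) * z⁻¹) (-deriv F ζ * z⁻¹) ζ :=
    (((S.diff.differentiableAt (isOpen_ball.mem_nhds hζb)).hasDerivAt).const_sub (F z)).mul_const _
  have h3' := h3.pow a
  have hev : (fun s => G a q K z s ^ q) =ᶠ[𝓝 ζ] fun s => ((F z - F s) * z⁻¹) ^ a := by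
    filter_upwards [isOpen_ball.mem_nhds hζ] with s hs
    exact G_pow hq HK hz0 hz1 hs
  have h4 := h1.unique (h3'.congr_of_eventuallyEq hev)
  have h5 := G_pow (a := a) hq HK hz0 hz1 hζ
  have h6 : z * z⁻¹ = 1 := mul_inv_cancel₀ hz0
  have hF : F z - F ζ ≠ 0 := by
    intro h
    have := S.inj hzb hζb (sub_eq_zero.1 h)
    rw [this] at hζn
    exact lt_irrefl _ hζn
  have hB : ((F z - F ζ) * z⁻¹) ^ a ≠ 0 := pow_ne_zero _ (mul_ne_zero hF (inv_ne_zero hz0))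
  have hqc : (q : ℂ) ≠ 0 := by exact_mod_cast hq.ne'
  have hal := al_mul (a := a) hq
  -- multiply by `G` and `F z - F ζ`
  have e1 : G a q K z ζ ^ (q - 1) * G a q K z ζ = G a q K z ζ ^ q := by
    rw [← pow_succ, Nat.sub_add_cancel hq]
  have e2 : (a : ℂ) * ((F z - F ζ) * z⁻¹) ^ (a - 1) * ((F z - F ζ) * z⁻¹) =
      a * ((F z - F ζ) * z⁻¹) ^ a := by
    rcases Nat.eq_zero_or_pos a with h | h
    · subst h
      simp
    · rw [mul_assoc, ← pow_succ, Nat.sub_add_cancel h]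
  have e3 : (q : ℂ) * G a q K z ζ ^ q * deriv (G a q K z) ζ * (F z - F ζ) =
      -(a * ((F z - F ζ) * z⁻¹) ^ a * deriv F ζ * G a q K z ζ) := by
    linear_combination (G a q K z ζ * (F z - F ζ)) * h4 -
      (q * deriv (G a q K z) ζ * (F z - F ζ)) * e1 - (deriv F ζ * G a q K z ζ) * e2
  rw [h5] at e3
  have e4 : (q : ℂ) * (((F z - F ζ) * deriv (G a q K z) ζ)) =
      q * (al a q * (deriv F ζ * G a q K z ζ)) := by
    have e5 : ((F z - F ζ) * z⁻¹) ^ a * ((q : ℂ) * (((F z - F ζ) * deriv (G a q K z) ζ))) =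
        ((F z - F ζ) * z⁻¹) ^ a * (q * (al a q * (deriv F ζ * G a q K z ζ))) := by
      linear_combination e3 + (((F z - F ζ) * z⁻¹) ^ a * deriv F ζ * G a q K z ζ) * hal
    exact mul_left_cancel₀ hB e5
  exact mul_left_cancel₀ hqc e4

/-- the series of the derivative -/
theorem ej_deriv (HK : Kq q F K) (hν : Se (fun p => K p ^ a) ν)
    {z : ℂ} (hz0 : z ≠ 0) (hz1 : ‖z‖ < 1) {ζ : ℂ} (hζ : ζ ∈ ball (0 : ℂ) ‖z‖) :
    HasSum (fun j : ℕ => (((j : ℂ) + 1) * ej (al a q) ν (j + 1) z) * ζ ^ j)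
      (deriv (G a q K z) ζ) := by
  have hr : 0 < ‖z‖ := norm_pos_iff.2 hz0
  have hFd : DifferentiableOn ℂ (G a q K z) (ball 0 ‖z‖) := fun s hs =>
    (G_diff HK hz1 hs).differentiableWithinAt
  have hcf : ∀ n, cf n (G a q K z) = ej (al a q) ν n z :=
    ser_unique hr (fun ζ hζ => cf_hasSum hFd hζ) (fun ζ hζ => ej_hasSum hν hz1 hζ)
  refine hs_congr (cf_hasSum (hFd.deriv isOpen_ball) hζ) fun n => ?_
  rw [cf_deriv, hcf]

/-- the series of the base -/
theorem u_hasSum (S : Sc F) (w : ℂ) {ζ : ℂ} (hζ : ζ ∈ ball (0 : ℂ) 1) :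
    HasSum (fun j : ℕ => ((if j = 0 then w else 0) - cf j F) * ζ ^ j) (w - F ζ) := by
  have h1 := hasSum_ite_eq (0 : ℕ) w
  refine hs_congr (h1.sub (cf_hasSum S.diff hζ)) fun n => ?_
  by_cases hn : n = 0
  · subst hn
    simp
  · simp [hn]

/-- the series of the derivative of the base -/
theorem u_deriv (S : Sc F) {ζ : ℂ} (hζ : ζ ∈ ball (0 : ℂ) 1) :
    HasSum (fun j : ℕ => (((j : ℂ) + 1) * cf (j + 1) F) * ζ ^ j) (deriv F ζ) := by
  refine hs_congr (cf_hasSum (S.diff.deriv isOpen_ball) hζ) fun n => ?_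
  rw [cf_deriv]

/-- the recursion for the coefficients -/
theorem recur (hq : 0 < q) (S : Sc F) (HK : Kq q F K) (hν : Se (fun p => K p ^ a) ν)
    {z : ℂ} (hz0 : z ≠ 0) (hz1 : ‖z‖ < 1) (j : ℕ) :
    ∑ i ∈ Finset.range (j + 1), ((if i = 0 then F z else 0) - cf i F) *
        ((((j - i : ℕ) : ℂ) + 1) * ej (al a q) ν (j - i + 1) z) =
      al a q * ∑ i ∈ Finset.range (j + 1), (((i : ℂ) + 1) * cf (i + 1) F) * ej (al a q) ν (j - i) z := by
  have hr : 0 < ‖z‖ := norm_pos_iff.2 hz0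
  have hsub : ball (0 : ℂ) ‖z‖ ⊆ ball 0 1 := ball_subset_ball hz1.le
  have e1 : ∀ ζ ∈ ball (0 : ℂ) ‖z‖, HasSum (fun n : ℕ => (∑ i ∈ Finset.range (n + 1),
      ((if i = 0 then F z else 0) - cf i F) *
        ((((n - i : ℕ) : ℂ) + 1) * ej (al a q) ν (n - i + 1) z)) * ζ ^ n)
      ((F z - F ζ) * deriv (G a q K z) ζ) := by
    intro ζ hζ
    have h1 := u_hasSum S (F z) (hsub hζ)
    have h2 := ej_deriv HK hν hz0 hz1 hζ
    exact hasSum_cauchy (a := fun i => (if i = 0 then F z else 0) - cf i F)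
      (b := fun n => ((n : ℂ) + 1) * ej (al a q) ν (n + 1) z) h1 h2
  have e2 : ∀ ζ ∈ ball (0 : ℂ) ‖z‖, HasSum (fun n : ℕ => (al a q * ∑ i ∈ Finset.range (n + 1),
      (((i : ℂ) + 1) * cf (i + 1) F) * ej (al a q) ν (n - i) z) * ζ ^ n)
      ((F z - F ζ) * deriv (G a q K z) ζ) := by
    intro ζ hζ
    rw [ode hq S HK hz0 hz1 hζ]
    have h1 := (hasSum_cauchy (a := fun i => ((i : ℂ) + 1) * cf (i + 1) F)
      (b := fun n => ej (al a q) ν n z) (u_deriv S (hsub hζ)) (ej_hasSum hν hz1 hζ)).mul_left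
        (al a q)
    refine hs_congr h1 fun n => ?_
    rw [mul_assoc]
  exact ser_unique (f := fun ζ => (F z - F ζ) * deriv (G a q K z) ζ) hr e1 e2 j

/-- the coefficient of order zero -/
theorem ej_zero (hν : Se (fun p => K p ^ a) ν) {z : ℂ} (hz0 : z ≠ 0) (hz1 : ‖z‖ < 1) :
    ej (al a q) ν 0 z = K (0, z) ^ a := by
  have h0 : (0 : ℂ) ∈ ball (0 : ℂ) ‖z‖ := by
    rw [mem_ball_zero_iff, norm_zero]
    exact norm_pos_iff.2 hz0
  have h1 := ej_hasSum (q := q) hν hz1 h0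
  have h2 : HasSum (fun j : ℕ => ej (al a q) ν j z * (0 : ℂ) ^ j) (ej (al a q) ν 0 z) := by
    have := hasSum_single (f := fun j : ℕ => ej (al a q) ν j z * (0 : ℂ) ^ j) 0 (fun n hn => by
      simp [zero_pow hn])
    simpa using this
  rw [h2.unique h1]
  unfold G
  simp

theorem F_zero (S : Sc F) : cf 0 F = 0 := by
  unfold cf
  simp [S.zero]

/-- the recursion, solved for the coefficient of the highest order -/
theorem recur' (hq : 0 < q) (S : Sc F) (HK : Kq q F K) (hν : Se (fun p => K p ^ a) ν)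
    {z : ℂ} (hz0 : z ≠ 0) (hz1 : ‖z‖ < 1) (j : ℕ) :
    F z * (((j : ℂ) + 1) * ej (al a q) ν (j + 1) z) =
      ∑ i ∈ Finset.range j, cf (i + 1) F *
        ((((j - (i + 1) : ℕ) : ℂ) + 1) * ej (al a q) ν (j - (i + 1) + 1) z) +
      al a q * (∑ i ∈ Finset.range j, (((i : ℂ) + 1) * cf (i + 1) F) * ej (al a q) ν (j - i) z +
        ((j : ℂ) + 1) * cf (j + 1) F * K (0, z) ^ a) := by
  have h1 := recur hq S HK hν hz0 hz1 j
  rw [Finset.sum_range_succ', Finset.sum_range_succ] at h1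
  rw [F_zero S] at h1
  simp only [Nat.succ_ne_zero, if_false, zero_sub, if_true, sub_zero, Nat.sub_zero,
    Nat.sub_self, neg_mul, Finset.sum_neg_distrib, ej_zero hν hz0 hz1] at h1
  linear_combination h1

end POL

open POL in
theorem pol : S_POL := by
  intro a q F K ν ha haq S HK hν j
  have hq : 0 < q := by omega
  change 1 ≤ j → ∃ P : Polynomial ℂ, ∀ v : ℂ, v ≠ 0 → ‖v‖ < 1 →
      v ^ a * ej (al a q) ν j (v ^ q) = P.eval ((K (0, v ^ q))⁻¹ / v)
  induction j using Nat.strong_induction_on with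
  | _ j ih =>
    intro hj1
    obtain ⟨j, rfl⟩ : ∃ i, j = i + 1 := ⟨j - 1, by omega⟩
    choose! P hP using ih
    refine ⟨Polynomial.C (((j : ℂ) + 1)⁻¹) *
      (Polynomial.X ^ q * (∑ i ∈ Finset.range j, Polynomial.C (cf (i + 1) F *
          (((j - (i + 1) : ℕ) : ℂ) + 1)) * P (j - (i + 1) + 1) +
        Polynomial.C (al a q) * ∑ i ∈ Finset.range j,
          Polynomial.C (((i : ℂ) + 1) * cf (i + 1) F) * P (j - i)) +
        Polynomial.C (al a q * (((j : ℂ) + 1) * cf (j + 1) F)) * Polynomial.X ^ (q - a)), ?_⟩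
    intro v hv0 hv1
    have hz0 : v ^ q ≠ 0 := pow_ne_zero q hv0
    have hz1 : ‖v ^ q‖ < 1 := by
      rw [norm_pow]
      exact pow_lt_one₀ (norm_nonneg _) hv1 hq.ne'
    have hz1b : v ^ q ∈ ball (0 : ℂ) 1 := mem_ball_zero_iff.2 hz1
    have hFz : F (v ^ q) ≠ 0 := by
      intro h
      apply hz0
      exact S.inj hz1b (mem_ball_self one_pos) (by rw [h, S.zero])
    have hKF : K (0, v ^ q) ^ q * v ^ q = F (v ^ q) := by
      have := HK.pow 0 (mem_ball_self one_pos) (v ^ q) hz1b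
      rw [S.zero, sub_zero, sub_zero] at this
      exact this
    have hK0 : K (0, v ^ q) ≠ 0 := by
      intro h
      rw [h, zero_pow hq.ne'] at hKF
      apply hFz
      rw [← hKF]
      simp
    have hj : ((j : ℂ) + 1) ≠ 0 := by exact_mod_cast Nat.succ_ne_zero j
    have hrec := recur' hq S HK hν hz0 hz1 j
    set u : ℂ := (K (0, v ^ q))⁻¹ / v with hu
    rw [Polynomial.eval_mul, Polynomial.eval_C, Polynomial.eval_add, Polynomial.eval_mul,
      Polynomial.eval_add, Polynomial.eval_mul, Polynomial.eval_mul, Polynomial.eval_C,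
      Polynomial.eval_C, Polynomial.eval_pow, Polynomial.eval_X, Polynomial.eval_pow,
      Polynomial.eval_X, Polynomial.eval_finsetSum, Polynomial.eval_finsetSum]
    have h3 : ∑ i ∈ Finset.range j, Polynomial.eval u (Polynomial.C (cf (i + 1) F *
          (((j - (i + 1) : ℕ) : ℂ) + 1)) * P (j - (i + 1) + 1)) =
        v ^ a * ∑ i ∈ Finset.range j, cf (i + 1) F *
        ((((j - (i + 1) : ℕ) : ℂ) + 1) * ej (al a q) ν (j - (i + 1) + 1) (v ^ q)) := by
      rw [Finset.mul_sum]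
      apply Finset.sum_congr rfl
      intro i hi
      rw [Finset.mem_range] at hi
      rw [Polynomial.eval_mul, Polynomial.eval_C,
        ← hP (j - (i + 1) + 1) (by omega) (by omega) v hv0 hv1]
      ring
    have h4 : ∑ i ∈ Finset.range j, Polynomial.eval u
          (Polynomial.C (((i : ℂ) + 1) * cf (i + 1) F) * P (j - i)) =
        v ^ a * ∑ i ∈ Finset.range j, (((i : ℂ) + 1) * cf (i + 1) F) *
          ej (al a q) ν (j - i) (v ^ q) := by
      rw [Finset.mul_sum]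
      apply Finset.sum_congr rfl
      intro i hi
      rw [Finset.mem_range] at hi
      rw [Polynomial.eval_mul, Polynomial.eval_C,
        ← hP (j - i) (by omega) (by omega) v hv0 hv1]
      ring
    rw [h3, h4]
    have huv : u * (v * K (0, v ^ q)) = 1 := by
      rw [hu]
      field_simp
    have hu2 : u ^ q * F (v ^ q) = 1 := by
      rw [← hKF, ← mul_pow, mul_comm (K (0, v ^ q)) v, ← mul_pow, huv, one_pow]
    have huK : u ^ q * (v ^ a * K (0, v ^ q) ^ a) = u ^ (q - a) := by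
      rw [← Nat.sub_add_cancel haq.le, pow_add, Nat.add_sub_cancel, mul_assoc, ← mul_pow, ← mul_pow,
        Nat.sub_add_cancel haq.le, huv, one_pow, mul_one]
    have hmain : ((j : ℂ) + 1) * (v ^ a * ej (al a q) ν (j + 1) (v ^ q)) =
        u ^ q * v ^ a * (F (v ^ q) * (((j : ℂ) + 1) * ej (al a q) ν (j + 1) (v ^ q))) := by
      linear_combination (-((j : ℂ) + 1) * (v ^ a * ej (al a q) ν (j + 1) (v ^ q))) * hu2
    rw [eq_comm, inv_mul_eq_iff_eq_mul₀ hj, hmain, hrec]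
    linear_combination (-(al a q * (((j : ℂ) + 1) * cf (j + 1) F))) * huK

end Pool.Agent.H64.SL
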