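import Pool.Agent.H7.SZ.Stm
import Pool.Agent.H64.CX.StmF

set_option autoImplicit false

/-! # SL: integral means of order `2 a / q` in the whole class `S` (MP_433f59_an). Statements.

The chain is the one of `Pool/Agent/H7/SZ` with the exponent `s = a / q` in place of `1 / 2`
(`α = -s`, `μ = σ - 2 s`, weights `(j+1)^(-μ)`). -/

namespace Pool.Agent.H64.SL

open Metric Set Filter Topology MeasureTheory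
open scoped ENNReal
open Pool.Agent.H64.CX (bt rr TP TN GD SN)
open Pool.Agent.W677.Mar (IsG0)
open Pool.Agent.H7.SZ (Sc Se)

/-- the exponent -/
noncomputable def sx (a q : ℕ) : ℝ := (a : ℝ) / q

/-- the weights -/
noncomputable def wt (μ : ℝ) (j : ℕ) : ℝ := ((j : ℝ) + 1) ^ (-μ)

/-- `K (ζ, z) = ((F z - F ζ) / (z - ζ)) ^ (1/q)` -/
structure Kq (q : ℕ) (F : ℂ → ℂ) (K : ℂ × ℂ → ℂ) : Prop where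
  diff : DifferentiableOn ℂ K (ball (0 : ℂ) 1 ×ˢ ball (0 : ℂ) 1)
  symm : ∀ ζ ∈ ball (0 : ℂ) 1, ∀ z ∈ ball (0 : ℂ) 1, K (ζ, z) = K (z, ζ)
  pow : ∀ ζ ∈ ball (0 : ℂ) 1, ∀ z ∈ ball (0 : ℂ) 1, K (ζ, z) ^ q * (z - ζ) = F z - F ζ
  diag : ∀ ζ ∈ ball (0 : ℂ) 1, K (ζ, ζ) ^ q = deriv F ζ
  one : K (0, 0) = 1

/-- the positive part in the degree `m` (the term `n = m` is not included) -/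
noncomputable def LL (s μ : ℝ) (ν : ℕ → ℕ → ℂ) (m : ℕ) : ℝ :=
  ∑ n ∈ Finset.range m, ((n : ℝ) + s) * wt μ (m - n) * ‖TP (-(s : ℂ)) ν n m‖ ^ 2

/-- the negative part in the degree `m` -/
noncomputable def RR (s μ : ℝ) (ν : ℕ → ℕ → ℂ) (m : ℕ) : ℝ≥0∞ :=
  ∑' k : ℕ, ENNReal.ofReal (((k : ℝ) + 1 - s) * wt μ (m + k + 1) * ‖TN (-(s : ℂ)) ν (k + 1) m‖ ^ 2)

/-- SL-KER (copy `H7/SZ/KER.lean`, the `q`-th root in place of the square root) -/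
def S_KER : Prop := ∀ (q : ℕ) (F : ℂ → ℂ), 1 ≤ q → Sc F → ∃ K : ℂ × ℂ → ℂ, Kq q F K

/-- SL-POL (copy `H7/SZ/POL.lean`): with `G = K(ζ,z)^a (1-ζ/z)^s`, `G^q = ((F z - F ζ)/z)^a`, so
`(F z - F ζ) G' = -s F'(ζ) G`; by the recursion `v^a ej_j (v^q) = F_q(v)^a R_j(1/F(v^q))` with a polynomial
`R_j` divisible by `X` for `j ≥ 1`, `F_q (v) = v K (0, v^q)`, `F_q^q = F(v^q)`, and `a < q`. -/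
def S_POL : Prop :=
  ∀ (a q : ℕ) (F : ℂ → ℂ) (K : ℂ × ℂ → ℂ) (ν : ℕ → ℕ → ℂ), 1 ≤ a → a < q → Sc F → Kq q F K →
    Se (fun p => K p ^ a) ν → ∀ j : ℕ, 1 ≤ j →
    ∃ P : Polynomial ℂ, ∀ v : ℂ, v ≠ 0 → ‖v‖ < 1 →
      v ^ a * Pool.Agent.H7.CY.ej (-(sx a q : ℂ)) ν j (v ^ q) = P.eval ((K (0, v ^ q))⁻¹ / v)

/-- SL-IG (copy `H7/SZ/IG.lean`) -/
def S_IG : Prop := ∀ (q : ℕ) (F : ℂ → ℂ) (K : ℂ × ℂ → ℂ), 1 ≤ q → Sc F → Kq q F K →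
  IsG0 fun v => (K (0, v ^ q))⁻¹

/-- SL-AREA (copy `H7/SZ/AREA.lean`; Laurent exponents `q n + a` and `-(q k - a)`) -/
def S_AREA : Prop :=
  S_POL → S_IG → ∀ (a q : ℕ) (F : ℂ → ℂ) (K : ℂ × ℂ → ℂ) (ν : ℕ → ℕ → ℂ), 1 ≤ a → a < q → Sc F →
    Kq q F K → Se (fun p => K p ^ a) ν → ∀ j N : ℕ, 1 ≤ j →
    ∑ n ∈ Finset.range N, ((n : ℝ) + sx a q) * ‖TP (-(sx a q : ℂ)) ν n (n + j)‖ ^ 2 ≤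
      ∑ k ∈ Finset.Icc 1 j, ((k : ℝ) - sx a q) * ‖TN (-(sx a q : ℂ)) ν k (j - k)‖ ^ 2

/-- SL-WAR (copy `H7/SZ/WAR.lean`) -/
def S_WAR : Prop :=
  ∀ (s μ : ℝ) (ν : ℕ → ℕ → ℂ), 0 < s → s < 1 → (∀ j N : ℕ, 1 ≤ j →
    ∑ n ∈ Finset.range N, ((n : ℝ) + s) * ‖TP (-(s : ℂ)) ν n (n + j)‖ ^ 2 ≤
      ∑ k ∈ Finset.Icc 1 j, ((k : ℝ) - s) * ‖TN (-(s : ℂ)) ν k (j - k)‖ ^ 2) →
    ∀ ρ ∈ Ioo (0 : ℝ) 1, ∑' m : ℕ, ENNReal.ofReal (ρ ^ m * LL s μ ν m) ≤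
      ∑' m : ℕ, ENNReal.ofReal (ρ ^ m) * RR s μ ν m

/-- SL-FRC (compare `H7/SZ/FRC.lean`). Proof. `h (v) = F_q(v)^a = ∑ ν 0 m v^(q m + a)`, `F_q (v) = v K(0,v^q)`
is injective in the disc (its `q`-th power is `F(v^q)`, and the argument of `SL-IG`). With `R = r^(1/q)`:
`π ∑ (q m + a) |ν 0 m|² R^(2(q m + a)) = ∫_{|v|<R} |h'|² = ∫_{F_q(D_R)} a² |w|^(2a-2) dA ≤
∫_{|w| ≤ M^(1/q)} a² |w|^(2a-2) dA = π a M^(2a/q)` (`lintegral_image_eq_lintegral_abs_det_fderiv_mul`); divide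
by `π q`. -/
def S_FRC : Prop :=
  ∀ (a q : ℕ) (F : ℂ → ℂ) (K : ℂ × ℂ → ℂ) (ν : ℕ → ℕ → ℂ), 1 ≤ a → a < q → Sc F →
    Kq q F K → Se (fun p => K p ^ a) ν → ∀ r ∈ Ioo (0 : ℝ) 1, ∀ M : ℝ, (∀ z : ℂ, ‖z‖ ≤ r → ‖F z‖ ≤ M) →
      ∀ N : ℕ, ∑ m ∈ Finset.range N, ((m : ℝ) + sx a q) * ‖ν 0 m‖ ^ 2 * r ^ (2 * ((m : ℝ) + sx a q)) ≤
        M ^ (2 * sx a q)

/-- SL-DM (compare `H7/SZ/DM.lean`): `r = 1 - 1/(2M)` -/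
def S_DM : Prop :=
  ∀ (y : ℕ → ℝ) (C s : ℝ), (∀ m, 0 ≤ y m) → 0 ≤ C → 0 < s → s ≤ 1 →
    (∀ r ∈ Ioo (0 : ℝ) 1, ∀ N : ℕ,
      ∑ m ∈ Finset.range N, ((m : ℝ) + s) * y m * r ^ (2 * ((m : ℝ) + s)) ≤ C * (1 - r) ^ (-(4 * s))) →
    ∃ C' : ℝ, 0 ≤ C' ∧ ∀ M : ℕ, 1 ≤ M →
      ∑ m ∈ Finset.range M, ((m : ℝ) + 1) * y m ≤ C' * (M : ℝ) ^ (4 * s)

/-- SL-PS: partial summation. Proof: dyadic blocks `2^i ≤ m+1 < 2^(i+1)`: `(m+1)^c ≤ 2^|c| 2^(ic)`, the sum of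
`Y` over the block is `≤ C 2^((i+1)E)`; `(1-1/M)^m ≤ e^(-m/M)` and for `2^i > M` use
`e^(-m/M) ≤ C_k (M/(m+1))^k`, `k > E + c`. (Compare `H7/SZ/PS.lean`.) -/
def S_PS : Prop :=
  ∀ (Y : ℕ → ℝ) (C E c : ℝ), (∀ m, 0 ≤ Y m) → 0 ≤ C → 0 ≤ E → 0 < E + c →
    (∀ M : ℕ, 1 ≤ M → ∑ m ∈ Finset.range M, Y m ≤ C * (M : ℝ) ^ E) →
    ∃ C' : ℝ, 0 ≤ C' ∧ ∀ M : ℕ, 2 ≤ M →
      ∑' m : ℕ, ENNReal.ofReal ((1 - 1 / (M : ℝ)) ^ m * (((m : ℝ) + 1) ^ c * Y m)) ≤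
        ENNReal.ofReal (C' * (M : ℝ) ^ (E + c))

/-- SL-FIN: from Abel means to partial sums; `(1 - 1/M)^m ≥ 1/4` for `m < M`, `M ≥ 2` -/
def S_FIN : Prop :=
  ∀ (E : ℕ → ℝ) (C κ : ℝ), (∀ m, 0 ≤ E m) → 0 ≤ C → 0 ≤ κ →
    (∀ M : ℕ, 2 ≤ M → ∑' m : ℕ, ENNReal.ofReal ((1 - 1 / (M : ℝ)) ^ m * E m) ≤
      ENNReal.ofReal (C * (M : ℝ) ^ κ)) →
    ∃ C' : ℝ, 0 ≤ C' ∧ ∀ M : ℕ, 1 ≤ M → ∑ m ∈ Finset.range M, E m ≤ C' * (M : ℝ) ^ κ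

/-- SL-MN (copy `H7/SZ/MN.lean`) -/
def S_MN : Prop :=
  ∀ (a : ℕ → ℂ) (g : ℂ → ℂ) (B β : ℝ), 0 ≤ B → 0 < β → β ≤ 1 →
    (∀ z ∈ ball (0 : ℂ) 1, HasSum (fun m : ℕ => a m * z ^ m) (g z)) →
    (∀ M : ℕ, 1 ≤ M → ∑ m ∈ Finset.range M, ‖a m‖ ^ 2 ≤ B * (M : ℝ) ^ β) →
    ∃ C : ℝ, 0 ≤ C ∧ ∀ r ∈ Ioo (0 : ℝ) 1,
      ∫ t in (0 : ℝ)..(2 * Real.pi), ‖g (circleMap 0 r t)‖ ^ 2 ≤ C * (1 - r) ^ (-β)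

/-- SL-RB: the last column. Proof. By `S_RN` (lower bound, `α = -s`) and `S_UN` (upper bound) the square is
`≤ C m^(2s) (m+k+1)^(-2s) / (k+1)^2`, so the term is `≤ C m^(2s) (m+k+2)^(-σ) / (k+1) ≤
C m^(2s-σ+η) (k+1)^(-1-η')` for small `η' = min η (σ/2)`: `(m+k+2)^(-σ) ≤ m^(-σ+η') (k+1)^(-η')`. -/
def S_RB : Prop :=
  Pool.Agent.H64.CX.S_RN → Pool.Agent.H64.CX.S_UN → ∀ s σ η : ℝ, 0 < s → s ≤ 1 / 2 → 0 < σ → 0 < η →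
    ∃ C : ℝ, 0 ≤ C ∧ ∀ m : ℕ, 1 ≤ m →
    ∑' k : ℕ, ENNReal.ofReal (((k : ℝ) + 1) * wt (σ - 2 * s) (m + k + 1) *
      (m * ‖bt (1 - (-(s : ℂ))) m‖ * (1 / ((m : ℝ) + k + 1) + 1 / ((k : ℝ) + 1 - s)) /
        ‖rr (-(s : ℂ)) (m + (k + 1)) - rr (-(s : ℂ)) (k + 1)‖) ^ 2) ≤
      ENNReal.ofReal (C * ((m : ℝ) + 1) ^ (2 * s - σ + η))

/-- SL-ROW (from IDN, RB). Proof. `S_IDN` gives `TN (k+1) m * (rr - rr) = A + B`, `B` the term `n = m`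
(`TP m m = ν 0 m`), `A` the terms `n < m`. `(x+y)² ≤ (1+ε) x² + (1+1/ε) y²`. By Cauchy's inequality (see
`CX/CSN.lean`) `(k+1) wt (m+k+1) |A|²/|rr-rr|² ≤ SN (-s) (σ-2s) m (k+1) * ∑_{1≤n<m} n wt (m-n) |TP n m|²`, and
the last sum is `≤ LL`; sum over `k`: `≤ (1-δ) LL`; the `B` part by `S_RB`. Take `(1+ε)(1-δ) ≤ 1-δ/2`,
`δ' = δ/2`. -/
def S_ROW : Prop :=
  Pool.Agent.H64.CX.S_IDN → S_RB → Pool.Agent.H64.CX.S_RN → Pool.Agent.H64.CX.S_UN →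
    ∀ s σ η : ℝ, 0 < s → s ≤ 1 / 2 → 0 < σ → 0 < η →
    (∃ (δ : ℝ) (M₀ : ℕ), 0 < δ ∧ δ ≤ 1 ∧ ∀ m, M₀ ≤ m →
      ∑' k : ℕ, ENNReal.ofReal (SN (-(s : ℂ)) (σ - 2 * s) m (k + 1)) ≤ ENNReal.ofReal (1 - δ)) →
    ∃ (δ' C : ℝ) (m₀ : ℕ), 0 < δ' ∧ 0 ≤ C ∧ ∀ ν : ℕ → ℕ → ℂ, (∀ a b, ν a b = ν b a) →
      ∀ m : ℕ, m₀ ≤ m →
      RR s (σ - 2 * s) ν m + ENNReal.ofReal (δ' * LL s (σ - 2 * s) ν m) ≤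
        ENNReal.ofReal (LL s (σ - 2 * s) ν m + C * ((m : ℝ) + 1) ^ (2 * s - σ + η) * ‖ν 0 m‖ ^ 2)

/-- SL-LOW (compare `H7/SZ/LOW.lean`, `CX/LOWN.lean`): `‖bt (-s) j‖ ≤ C (j+1)^(-s-1)` -/
def S_LOW : Prop :=
  Pool.Agent.H64.CX.S_BTU → ∀ s σ : ℝ, 0 < s → s ≤ 1 / 2 → 0 < σ → ∀ (ν : ℕ → ℕ → ℂ) (m : ℕ),
    RR s (σ - 2 * s) ν m ≠ ⊤

/-- SL-SUM (compare `H7/SZ/SMB.lean`, `CX/SUMMN.lean`) -/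
def S_SUM : Prop :=
  Pool.Agent.H64.CX.S_BTU → ∀ (s μ : ℝ) (ν : ℕ → ℕ → ℂ), 0 < s → s ≤ 1 / 2 →
    (∀ t ∈ Ioo (0 : ℝ) 1, ∃ C : ℝ, ∀ a b, ‖ν a b‖ * t ^ (a + b) ≤ C) →
    ∀ ρ ∈ Ioo (0 : ℝ) 1, Summable fun m : ℕ => ρ ^ m * LL s μ ν m

/-- SL-GD (compare `H7/SZ/GD.lean`, `CX/HBN.lean`): split off the term `n = m` (`TP m m = ν 0 m`) -/
def S_GD : Prop :=
  Pool.Agent.H64.CX.S_HID → Pool.Agent.H64.CX.S_BTU → ∀ s σ : ℝ, 0 < s → s ≤ 1 / 2 → 0 < σ →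
    -1 < σ - 2 * s → ∃ C : ℝ, 0 ≤ C ∧
    ∀ ν : ℕ → ℕ → ℂ, (∀ a b, ν a b = ν b a) → ∀ m : ℕ, 1 ≤ m →
      ‖GD ν m‖ ^ 2 ≤ C * (((m : ℝ) + 1) ^ σ * LL s (σ - 2 * s) ν m +
        ((m : ℝ) + 1) ^ (2 * s) * ‖ν 0 m‖ ^ 2)

/-- SL-GR: growth in the class `S` (it is inside `H7/SZ/GW.lean`) -/
def S_GR : Prop := ∀ F : ℂ → ℂ, Sc F → ∀ z ∈ ball (0 : ℂ) 1, ‖F z‖ * (1 - ‖z‖) ^ 2 ≤ ‖z‖

/-- the integral mean of order `l` of the derivative -/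
noncomputable def IM (f : ℂ → ℂ) (l r : ℝ) : ℝ :=
  ((2 * Real.pi)⁻¹ * ∫ t in (0 : ℝ)..(2 * Real.pi), ‖deriv f (circleMap 0 r t)‖ ^ l) ^ (1 / l)

/-- SL-HOL: the means increase with the exponent (Jensen; Hölder) -/
def S_HOL : Prop :=
  ∀ (f : ℂ → ℂ) (l l' r : ℝ), DifferentiableOn ℂ f (ball 0 1) → 0 < l → l ≤ l' → r ∈ Ioo (0 : ℝ) 1 →
    IM f l r ≤ IM f l' r

/-- SL-NRM: normalisation of a univalent function -/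
def S_NRM : Prop :=
  ∀ f : ℂ → ℂ, DifferentiableOn ℂ f (ball 0 1) → InjOn f (ball 0 1) →
    (∀ z ∈ ball (0 : ℂ) 1, deriv f z ≠ 0) ∧ Sc (fun z => (f z - f 0) / deriv f 0) ∧
      ∀ z ∈ ball (0 : ℂ) 1, deriv f z = deriv f 0 * deriv (fun z => (f z - f 0) / deriv f 0) z

/-- SL-POS: the means are positive -/
def S_POS : Prop :=
  ∀ (f : ℂ → ℂ) (l r : ℝ), DifferentiableOn ℂ f (ball 0 1) → InjOn f (ball 0 1) → 0 < l →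
    r ∈ Ioo (0 : ℝ) 1 → 0 < IM f l r

/-- SL-KOE: the Koebe function. For `|t| ≤ 1 - r`: `|1 - z| ≤ 2 (1-r)`, `|1 + z| ≥ 1`, and
`k'(z) = (1+z)/(1-z)^3`; injectivity: `z/(1-z)^2 = w/(1-w)^2` iff `(z-w)(1-zw) = 0`. -/
def S_KOE : Prop :=
  DifferentiableOn ℂ (fun z : ℂ => z / (1 - z) ^ 2) (ball 0 1) ∧
    InjOn (fun z : ℂ => z / (1 - z) ^ 2) (ball 0 1) ∧
    ∀ l : ℝ, 0 < l → ∃ c : ℝ, 0 < c ∧ ∀ r ∈ Ioo (1 / 2 : ℝ) 1,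
      c * (1 - r) ^ (-(3 - 1 / l)) ≤ IM (fun z : ℂ => z / (1 - z) ^ 2) l r

/-- the order of growth of a positive function as `r → 1` -/
noncomputable def ordr (I : ℝ → ℝ) : EReal :=
  limsup (fun r : ℝ => ((Real.log (I r) / Real.log (1 / (1 - r)) : ℝ) : EReal)) (𝓝[<] (1 : ℝ))

/-- SL-LSU -/
def S_LSU : Prop :=
  ∀ (I : ℝ → ℝ) (b : ℝ), (∀ r ∈ Ioo (0 : ℝ) 1, 0 < I r) →
    (∀ ε : ℝ, 0 < ε → ∃ C : ℝ, ∀ r ∈ Ioo (0 : ℝ) 1, I r ≤ C * (1 - r) ^ (-b - ε)) →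
    ordr I ≤ (b : EReal)

/-- SL-LSL -/
def S_LSL : Prop :=
  ∀ (I : ℝ → ℝ) (b c : ℝ), 0 < c → (∀ r ∈ Ioo (1 / 2 : ℝ) 1, c * (1 - r) ^ (-b) ≤ I r) →
    (b : EReal) ≤ ordr I

end Pool.Agent.H64.SL
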