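import Pool.Agent.H64.SL.Stm
import Pool.Agent.H7.SZ.GW

set_option autoImplicit false

/-! # SL-GR: Koebe's growth theorem (helper90) -/

namespace Pool.Agent.H64.SL

open Metric Set Filter Topology
open Pool.Agent.H7.SZ (Sc)

theorem gr : S_GR := by
  intro F hF z hz
  rw [mem_ball_zero_iff] at hz
  have h := Pool.Agent.H7.SZ.gw_koebe hF hz
  have h1 : 0 < (1 - ‖z‖) ^ 2 := by
    have : 0 < 1 - ‖z‖ := by linarith
    positivity
  rwa [le_div_iff₀ h1] at h

end Pool.Agent.H64.SL
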