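import Pool.Agent.H64.SL.Stm

/-! # SL-LSL (helper72) -/

set_option autoImplicit false

namespace Pool.Agent.H64.SL

open Metric Set Filter Topology MeasureTheory
open scoped ENNReal


theorem lsl : S_LSL := by
  intro I b c hc h
  unfold ordr
  have a1 : Tendsto (fun r : ℝ => 1 - r) (𝓝[<] (1 : ℝ)) (𝓝[>] (0 : ℝ)) := by
    rw [tendsto_nhdsWithin_iff]
    refine ⟨?_, ?_⟩
    · have : Tendsto (fun r : ℝ => 1 - r) (𝓝 (1 : ℝ)) (𝓝 (1 - 1)) :=
        (continuous_const.sub continuous_id).tendsto 1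
      rw [sub_self] at this
      exact this.mono_left nhdsWithin_le_nhds
    · filter_upwards [self_mem_nhdsWithin] with r hr
      have : r < 1 := hr
      show 0 < 1 - r
      linarith
  have h1 : Tendsto (fun r : ℝ => Real.log (1 / (1 - r))) (𝓝[<] (1 : ℝ)) atTop := by
    have a2 : Tendsto (fun r : ℝ => (1 - r)⁻¹) (𝓝[<] (1 : ℝ)) atTop := tendsto_inv_nhdsGT_zero.comp a1
    refine (Real.tendsto_log_atTop.comp a2).congr fun r => ?_
    rw [Function.comp_apply, one_div]
  have h2 : Tendsto (fun r : ℝ => b + Real.log c / Real.log (1 / (1 - r))) (𝓝[<] (1 : ℝ)) (𝓝 b) := by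
    have := (h1.const_div_atTop (Real.log c)).const_add b
    rw [add_zero] at this
    exact this
  have h3 : Tendsto (fun r : ℝ => ((b + Real.log c / Real.log (1 / (1 - r)) : ℝ) : EReal))
      (𝓝[<] (1 : ℝ)) (𝓝 (b : EReal)) := (continuous_coe_real_ereal.tendsto b).comp h2
  rw [← h3.limsup_eq]
  refine limsup_le_limsup ?_
  filter_upwards [Ioo_mem_nhdsLT (show (1 / 2 : ℝ) < 1 by norm_num)] with r hr
  have hr1 : 0 < 1 - r := by linarith [hr.2]
  have hl : 0 < Real.log (1 / (1 - r)) := by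
    apply Real.log_pos
    rw [lt_div_iff₀ hr1]
    linarith [hr.1]
  have h4 := h r hr
  have hp : 0 < c * (1 - r) ^ (-b) := mul_pos hc (Real.rpow_pos_of_pos hr1 _)
  have h5 := Real.log_le_log hp h4
  rw [Real.log_mul hc.ne' (Real.rpow_pos_of_pos hr1 _).ne', Real.log_rpow hr1] at h5
  have h6 : Real.log (1 / (1 - r)) = -Real.log (1 - r) := by rw [one_div, Real.log_inv]
  have h7 : b + Real.log c / Real.log (1 / (1 - r)) ≤ Real.log (I r) / Real.log (1 / (1 - r)) := by
    rw [le_div_iff₀ hl, add_mul, div_mul_cancel₀ _ hl.ne', h6]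
    linarith
  exact_mod_cast h7

end Pool.Agent.H64.SL
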