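import Pool.Agent.H64.SL.Stm

set_option autoImplicit false

/-! # SL-LSU (helper61) -/

namespace Pool.Agent.H64.SL

open Set Filter Topology

theorem lsu_tend : Tendsto (fun r : ℝ => Real.log (1 / (1 - r))) (𝓝[<] (1 : ℝ)) atTop := by
  have h1 : Tendsto (fun r : ℝ => 1 - r) (𝓝[<] (1 : ℝ)) (𝓝[>] (0 : ℝ)) := by
    refine tendsto_nhdsWithin_of_tendsto_nhds_of_eventually_within _ ?_ ?_
    · have : Tendsto (fun r : ℝ => 1 - r) (𝓝 (1 : ℝ)) (𝓝 (1 - 1)) := (continuous_const.sub continuous_id).tendsto 1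
      rw [sub_self] at this
      exact this.mono_left nhdsWithin_le_nhds
    · filter_upwards [self_mem_nhdsWithin] with r hr
      exact mem_Ioi.mpr (sub_pos.mpr (mem_Iio.mp hr))
  have h2 := tendsto_neg_atBot_atTop.comp (Real.tendsto_log_nhdsGT_zero.comp h1)
  refine h2.congr fun r => ?_
  simp [Real.log_inv]

theorem lsu_mem : ∀ᶠ r : ℝ in 𝓝[<] (1 : ℝ), r ∈ Ioo (1 / 2 : ℝ) 1 :=
  Ioo_mem_nhdsLT (by norm_num)

theorem lsu_pow (r x : ℝ) (hr : r < 1) : Real.log ((1 - r) ^ (-x)) = x * Real.log (1 / (1 - r)) := by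
  rw [Real.log_rpow (sub_pos.mpr hr), one_div, Real.log_inv]
  ring

theorem lsu : S_LSU := by
  intro I b hI h
  unfold ordr
  rw [← EReal.le_of_forall_lt_iff_le]
  intro z hz
  have hz' : b < z := by exact_mod_cast hz
  obtain ⟨C, hC⟩ := h ((z - b) / 2) (by linarith)
  have hhalf := hC (1 / 2) (by constructor <;> norm_num)
  have hIh := hI (1 / 2) (by constructor <;> norm_num)
  have hC0 : 0 < C := by
    have h1 : 0 < C * (1 - 1 / 2 : ℝ) ^ (-b - (z - b) / 2) := hIh.trans_le hhalf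
    exact pos_of_mul_pos_left h1 (Real.rpow_nonneg (by norm_num) _)
  refine Filter.limsup_le_of_le (by isBoundedDefault) ?_
  filter_upwards [lsu_mem, lsu_tend.eventually_ge_atTop (max 1 (Real.log C / ((z - b) / 2)))] with r hr hL
  have hL1 : (1 : ℝ) ≤ Real.log (1 / (1 - r)) := (le_max_left _ _).trans hL
  have hL2 := (le_max_right _ _).trans hL
  rw [div_le_iff₀ (by linarith : (0 : ℝ) < (z - b) / 2)] at hL2
  have hr' : r ∈ Ioo (0 : ℝ) 1 := ⟨by linarith [hr.1], hr.2⟩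
  have h1 := Real.log_le_log (hI r hr') (hC r hr')
  have h2 : 0 < (1 - r) ^ (-b - (z - b) / 2) := Real.rpow_pos_of_pos (sub_pos.mpr hr.2) _
  rw [Real.log_mul hC0.ne' h2.ne', show -b - (z - b) / 2 = -((z + b) / 2) by ring, lsu_pow r _ hr.2] at h1
  have h3 : Real.log (I r) / Real.log (1 / (1 - r)) ≤ z := by
    rw [div_le_iff₀ (by linarith)]
    nlinarith
  exact_mod_cast h3

end Pool.Agent.H64.SL
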