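import Pool.Agent.H64.SL.Stm
import Pool.Agent.H64.G.R_seed8.Helper240.ZFM.ConvA

set_option autoImplicit false

namespace Pool.Agent.H64.SL

open Metric Set Filter Topology MeasureTheory

theorem pos : S_POS := by
  intro f l r hd hi hl hr
  have hne : ∀ z ∈ ball (0 : ℂ) 1, deriv f z ≠ 0 := fun z hz =>
    Pool.Agent.Helper405.Conv.deriv_ne_zero_of_injOn isOpen_ball hd hi hz
  have hmem : ∀ t : ℝ, circleMap 0 r t ∈ ball (0 : ℂ) 1 := by
    intro t
    rw [mem_ball_zero_iff]
    simp only [circleMap, zero_add, norm_mul, Complex.norm_real, Real.norm_eq_abs,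
      Complex.norm_exp_ofReal_mul_I, mul_one]
    rw [abs_of_pos hr.1]
    exact hr.2
  have hcont : Continuous fun t : ℝ => ‖deriv f (circleMap 0 r t)‖ ^ l := by
    have hc : ContinuousOn (deriv f) (ball 0 1) := (hd.deriv isOpen_ball).continuousOn
    exact (hc.comp_continuous (continuous_circleMap 0 r) hmem).norm.rpow_const
      (fun t => Or.inr hl.le)
  have hpos : 0 < ∫ t in (0 : ℝ)..(2 * Real.pi), ‖deriv f (circleMap 0 r t)‖ ^ l :=
    intervalIntegral.intervalIntegral_pos_of_pos (hcont.intervalIntegrable _ _)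
      (fun t => Real.rpow_pos_of_pos (norm_pos_iff.2 (hne _ (hmem t))) _)
      (by positivity)
  unfold IM
  exact Real.rpow_pos_of_pos (mul_pos (by positivity) hpos) _

end Pool.Agent.H64.SL
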