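import Pool.Agent.H64.SL.Stm

/-! SL-FIN (helper33): from Abel means to partial sums -/

set_option autoImplicit false

namespace Pool.Agent.H64.SL

open Metric Set Filter Topology MeasureTheory
open scoped ENNReal

namespace FINx

theorem quarter (M m : ℕ) (hM : 2 ≤ M) (hm : m < M) : (1 : ℝ) / 4 ≤ (1 - 1 / (M : ℝ)) ^ m := by
  have hM0 : (0 : ℝ) < M := by exact_mod_cast (by omega : 0 < M)
  have hM2 : (2 : ℝ) ≤ M := by exact_mod_cast hM
  have h0 : 0 ≤ 1 - 1 / (M : ℝ) := by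
    rw [sub_nonneg, div_le_one hM0]; linarith
  have h1 : 1 - 1 / (M : ℝ) ≤ 1 := by
    have : 0 ≤ 1 / (M : ℝ) := by positivity
    linarith
  have h2 : (1 - 1 / (M : ℝ)) ^ M ≤ (1 - 1 / (M : ℝ)) ^ m := pow_le_pow_of_le_one h0 h1 hm.le
  refine le_trans ?_ h2
  have h3 := one_add_mul_self_le_rpow_one_add (s := -(1 / (M : ℝ))) (p := (M : ℝ) / 2)
    (by linarith) (by linarith)
  have h4 : 1 + (M : ℝ) / 2 * -(1 / (M : ℝ)) = 1 / 2 := by
    field_simp
    ring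
  have h5 : 1 + -(1 / (M : ℝ)) = 1 - 1 / (M : ℝ) := by ring
  rw [h4, h5] at h3
  have h6 : ((1 - 1 / (M : ℝ)) ^ ((M : ℝ) / 2)) ^ 2 = (1 - 1 / (M : ℝ)) ^ M := by
    rw [← Real.rpow_natCast, ← Real.rpow_mul h0, ← Real.rpow_natCast]
    congr 1
    push_cast
    ring
  rw [← h6]
  nlinarith

end FINx

theorem fin : S_FIN := by
  intro E C κ hE hC hκ h
  have key : ∀ M : ℕ, 2 ≤ M → ∀ N : ℕ,
      ∑ m ∈ Finset.range N, (1 - 1 / (M : ℝ)) ^ m * E m ≤ C * (M : ℝ) ^ κ := by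
    intro M hM N
    have hM0 : (0 : ℝ) < M := by exact_mod_cast (by omega : 0 < M)
    have hM2 : (2 : ℝ) ≤ M := by exact_mod_cast hM
    have h0 : 0 ≤ 1 - 1 / (M : ℝ) := by
      rw [sub_nonneg, div_le_one hM0]; linarith
    have h1 := (ENNReal.sum_le_tsum (f := fun m : ℕ =>
      ENNReal.ofReal ((1 - 1 / (M : ℝ)) ^ m * E m)) (Finset.range N)).trans (h M hM)
    rw [← ENNReal.ofReal_sum_of_nonneg (fun m _ => mul_nonneg (pow_nonneg h0 m) (hE m))] at h1
    exact (ENNReal.ofReal_le_ofReal_iff (by positivity)).1 h1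
  refine ⟨4 * C + C * 2 ^ κ, by positivity, fun M hM => ?_⟩
  have h2κ : 0 ≤ C * (2 : ℝ) ^ κ := by positivity
  rcases Nat.lt_or_ge M 2 with h2 | h2
  · have hM1 : M = 1 := by omega
    subst hM1
    have h3 := key 2 le_rfl 1
    simp only [Finset.sum_range_one, pow_zero, one_mul, Nat.cast_ofNat] at h3 ⊢
    rw [Nat.cast_one, Real.one_rpow, mul_one]
    linarith
  · have hMκ : 0 ≤ (M : ℝ) ^ κ := by positivity
    calc ∑ m ∈ Finset.range M, E m
        ≤ ∑ m ∈ Finset.range M, 4 * ((1 - 1 / (M : ℝ)) ^ m * E m) := by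
          refine Finset.sum_le_sum fun m hm => ?_
          have h4 := FINx.quarter M m h2 (Finset.mem_range.1 hm)
          have h5 := mul_le_mul_of_nonneg_right h4 (hE m)
          linarith
      _ = 4 * ∑ m ∈ Finset.range M, (1 - 1 / (M : ℝ)) ^ m * E m := by rw [Finset.mul_sum]
      _ ≤ 4 * (C * (M : ℝ) ^ κ) := by linarith [key M h2 M]
      _ ≤ (4 * C + C * 2 ^ κ) * (M : ℝ) ^ κ := by nlinarith

end Pool.Agent.H64.SL
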