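import Pool.Agent.H64.SL.Stm
import Pool.Agent.H7.SZ.FRC

set_option autoImplicit false

/-! # SL-FRC: the area with multiplicity of `F_q ^ a` -/

namespace Pool.Agent.H64.SL

open Metric Set Filter Topology MeasureTheory
open scoped ENNReal

namespace FRCx

theorem real_int (b : ℕ) {L : ℝ} (hL : 0 ≤ L) :
    ∫ w in closedBall (0 : ℂ) L, ((b : ℝ) + 1) ^ 2 * ‖w‖ ^ (2 * b) =
      Real.pi * (((b : ℝ) + 1) * L ^ (2 * b + 2)) := by
  have h1 := integral_fun_norm_addHaar (volume : Measure ℂ)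
    (indicator (Iic L) fun y : ℝ => ((b : ℝ) + 1) ^ 2 * y ^ (2 * b))
  have h2 : ∫ w in closedBall (0 : ℂ) L, ((b : ℝ) + 1) ^ 2 * ‖w‖ ^ (2 * b) =
      ∫ w : ℂ, indicator (Iic L) (fun y : ℝ => ((b : ℝ) + 1) ^ 2 * y ^ (2 * b)) ‖w‖ := by
    rw [← integral_indicator measurableSet_closedBall]
    refine integral_congr_ae (Eventually.of_forall fun w => ?_)
    by_cases hw : ‖w‖ ≤ L
    · simp only [indicator, mem_closedBall_zero_iff, mem_Iic, hw, if_true]
    · simp only [indicator, mem_closedBall_zero_iff, mem_Iic, hw, if_false]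
  rw [h2, h1, Complex.finrank_real_complex]
  have h3 : (volume : Measure ℂ).real (ball 0 1) = Real.pi := by
    rw [Measure.real, Complex.volume_ball]
    simp
  have h4 : ∫ y in Ioi (0 : ℝ), y ^ (2 - 1) •
      indicator (Iic L) (fun y : ℝ => ((b : ℝ) + 1) ^ 2 * y ^ (2 * b)) y =
      ∫ y in (0 : ℝ)..L, ((b : ℝ) + 1) ^ 2 * y ^ (2 * b + 1) := by
    rw [intervalIntegral.integral_of_le hL, ← Ioi_inter_Iic, ← integral_indicator
      (measurableSet_Ioi.inter measurableSet_Iic), ← integral_indicator measurableSet_Ioi]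
    refine integral_congr_ae (Eventually.of_forall fun y => ?_)
    by_cases h5 : 0 < y <;> by_cases h6 : y ≤ L <;>
      simp [indicator, h5, h6, pow_succ] <;> ring
  rw [h4, h3, intervalIntegral.integral_const_mul, integral_pow]
  simp only [nsmul_eq_mul, smul_eq_mul]
  have h7 : ((2 * b + 1 : ℕ) : ℝ) + 1 = 2 * ((b : ℝ) + 1) := by push_cast; ring
  rw [h7, zero_pow (by omega), sub_zero]
  push_cast
  field_simp

theorem ball_int (b : ℕ) {L : ℝ} (hL : 0 ≤ L) :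
    ∫⁻ w in closedBall (0 : ℂ) L, ENNReal.ofReal (((b : ℝ) + 1) ^ 2 * ‖w‖ ^ (2 * b)) =
      ENNReal.ofReal (Real.pi * (((b : ℝ) + 1) * L ^ (2 * b + 2))) := by
  rw [← real_int b hL, ofReal_integral_eq_lintegral_ofReal]
  · exact (by fun_prop : Continuous fun w : ℂ => ((b : ℝ) + 1) ^ 2 * ‖w‖ ^ (2 * b)).continuousOn.integrableOn_compact
      (isCompact_closedBall 0 L)
  · exact Eventually.of_forall fun w => by positivity


theorem image_area2 {g : ℂ → ℂ} (hd : DifferentiableOn ℂ g (ball 0 1)) (hi : InjOn g (ball 0 1))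
    {ρ L : ℝ} (hρ1 : ρ < 1) (hL0 : 0 ≤ L) (hL : ∀ z, ‖z‖ < ρ → ‖g z‖ ≤ L) (b : ℕ) :
    ∫⁻ z in ball (0 : ℂ) ρ, ENNReal.ofReal (‖deriv (fun v => g v ^ (b + 1)) z‖ ^ 2) ≤
      ENNReal.ofReal (Real.pi * (((b : ℝ) + 1) * L ^ (2 * b + 2))) := by
  have hsub : ball (0 : ℂ) ρ ⊆ ball 0 1 := ball_subset_ball hρ1.le
  have hder : ∀ z ∈ ball (0 : ℂ) 1, HasDerivAt g (deriv g z) z := fun z hz =>
    (hd.differentiableAt (isOpen_ball.mem_nhds hz)).hasDerivAt
  have e0 : ∀ z ∈ ball (0 : ℂ) 1, deriv (fun v => g v ^ (b + 1)) z =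
      ((b + 1 : ℕ) : ℂ) * g z ^ b * deriv g z := fun z hz => ((hder z hz).fun_pow (b + 1)).deriv
  have e1 := MeasureTheory.lintegral_image_eq_lintegral_abs_det_fderiv_mul volume
    (s := ball (0 : ℂ) ρ) measurableSet_ball (f := g)
    (f' := fun z => (ContinuousLinearMap.toSpanSingleton ℂ (deriv g z)).restrictScalars ℝ)
    (fun z hz => ((hder z (hsub hz)).hasFDerivAt.restrictScalars ℝ).hasFDerivWithinAt)
    (hi.mono hsub) (fun w => ENNReal.ofReal (((b : ℝ) + 1) ^ 2 * ‖w‖ ^ (2 * b)))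
  have e2 : ∫⁻ z in ball (0 : ℂ) ρ, ENNReal.ofReal (‖deriv (fun v => g v ^ (b + 1)) z‖ ^ 2) =
      ∫⁻ z in ball (0 : ℂ) ρ, ENNReal.ofReal
        |((ContinuousLinearMap.toSpanSingleton ℂ (deriv g z)).restrictScalars ℝ).det| *
        ENNReal.ofReal (((b : ℝ) + 1) ^ 2 * ‖g z‖ ^ (2 * b)) := by
    refine setLIntegral_congr_fun measurableSet_ball fun z hz => ?_
    rw [Pool.Agent.Helper405.Area.det_mul, abs_of_nonneg (by positivity),
      ← ENNReal.ofReal_mul (by positivity), e0 z (hsub hz), norm_mul, norm_mul,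
      Complex.norm_natCast, norm_pow]
    congr 1
    push_cast
    ring
  rw [e2, ← e1, ← ball_int b hL0]
  apply lintegral_mono_set
  rintro _ ⟨z, hz, rfl⟩
  rw [mem_closedBall_zero_iff]
  exact hL z (mem_ball_zero_iff.1 hz)

theorem area_le2 {g : ℂ → ℂ} {c : ℕ → ℂ}
    (hs : ∀ z ∈ ball (0 : ℂ) 1, HasSum (fun n => c n * z ^ n) (g z))
    (hd : DifferentiableOn ℂ g (ball 0 1)) {ρ Q : ℝ} (hρ : 0 < ρ)
    (hρ1 : ρ < 1) (hQ0 : 0 ≤ Q) (hQ : ∫⁻ z in ball (0 : ℂ) ρ, ENNReal.ofReal (‖deriv g z‖ ^ 2) ≤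
      ENNReal.ofReal (Real.pi * Q)) (N : ℕ) :
    ∑ n ∈ Finset.range N, (n : ℝ) * ‖c n‖ ^ 2 * ρ ^ (2 * n) ≤ Q := by
  have hpi := Real.pi_pos
  have h1 := (Pool.Agent.H7.SZ.FRC.polar hd hρ1).trans hQ
  have h2 : ∫⁻ r in Ioo (0 : ℝ) ρ, ENNReal.ofReal (∑ n ∈ Finset.range N,
      2 * Real.pi * ((n : ℝ) ^ 2 * ‖c n‖ ^ 2) * r ^ (2 * n - 1)) ≤
      ∫⁻ r in Ioo (0 : ℝ) ρ, ∫⁻ θ in Ioo (-Real.pi) Real.pi,
        ENNReal.ofReal (r * ‖deriv g (circleMap 0 r θ)‖ ^ 2) :=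
    setLIntegral_mono' measurableSet_Ioo fun r hr =>
      Pool.Agent.H7.SZ.FRC.inner hs hd hr.1 (hr.2.trans hρ1) N
  have h3 := h2.trans h1
  have hcont : Continuous fun r : ℝ => ∑ n ∈ Finset.range N,
      2 * Real.pi * ((n : ℝ) ^ 2 * ‖c n‖ ^ 2) * r ^ (2 * n - 1) := by fun_prop
  have h4 : ∫⁻ r in Ioo (0 : ℝ) ρ, ENNReal.ofReal (∑ n ∈ Finset.range N,
      2 * Real.pi * ((n : ℝ) ^ 2 * ‖c n‖ ^ 2) * r ^ (2 * n - 1)) =
      ENNReal.ofReal (Real.pi * ∑ n ∈ Finset.range N, (n : ℝ) * ‖c n‖ ^ 2 * ρ ^ (2 * n)) := by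
    rw [← ofReal_integral_eq_lintegral_ofReal]
    · congr 1
      rw [← integral_Ioc_eq_integral_Ioo, ← intervalIntegral.integral_of_le hρ.le,
        intervalIntegral.integral_finsetSum, Finset.mul_sum]
      · refine Finset.sum_congr rfl fun n _ => ?_
        rw [intervalIntegral.integral_const_mul, integral_pow]
        rcases Nat.eq_zero_or_pos n with h | h
        · subst h
          simp
        · have h5 : 2 * n - 1 + 1 = 2 * n := by omega
          have h6 : ((2 * n - 1 : ℕ) : ℝ) + 1 = 2 * n := by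
            rw [← Nat.cast_add_one, h5]
            push_cast
            ring
          have hn : (n : ℝ) ≠ 0 := by exact_mod_cast h.ne'
          rw [h5, h6, zero_pow (by omega), sub_zero]
          field_simp
      · intro n _
        exact Continuous.intervalIntegrable (by fun_prop) _ _
    · exact (hcont.integrableOn_Icc (a := 0) (b := ρ)).mono_set Ioo_subset_Icc_self
    · rw [EventuallyLE, ae_restrict_iff' measurableSet_Ioo]
      refine Eventually.of_forall fun r hr => ?_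
      exact Finset.sum_nonneg fun n _ => mul_nonneg (by positivity) (pow_nonneg hr.1.le _)
  rw [h4, ENNReal.ofReal_le_ofReal_iff (by positivity)] at h3
  exact le_of_mul_le_mul_left h3 hpi

end FRCx

open FRCx in
theorem frc : S_FRC := by
  intro a q F K ν ha haq hF hK hS r hr M hM N
  have hq : 0 < q := by omega
  have hqn : q ≠ 0 := hq.ne'
  have hqR : (0 : ℝ) < q := by exact_mod_cast hq
  have hM0 : 0 ≤ M := by
    have := hM 0 (by rw [norm_zero]; exact hr.1.le)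
    exact (norm_nonneg _).trans this
  have h01 : (0 : ℂ) ∈ ball (0 : ℂ) 1 := mem_ball_self one_pos
  have hv2 : ∀ v : ℂ, v ∈ ball (0 : ℂ) 1 → v ^ q ∈ ball (0 : ℂ) 1 := by
    intro v hv
    rw [mem_ball_zero_iff] at hv ⊢
    rw [norm_pow]
    exact pow_lt_one₀ (norm_nonneg _) hv hqn
  obtain ⟨g, hg⟩ : ∃ g : ℂ → ℂ, g = fun v => v * K (0, v ^ q) := ⟨_, rfl⟩
  have hg' : ∀ v, g v = v * K (0, v ^ q) := fun v => by rw [hg]
  obtain ⟨c, hc⟩ : ∃ c : ℕ → ℂ, c = fun n => if n % q = a then ν 0 (n / q) else 0 := ⟨_, rfl⟩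
  have hc1 : ∀ m, c (q * m + a) = ν 0 m := by
    intro m
    rw [hc]
    have a1 : (q * m + a) % q = a := by rw [Nat.mul_add_mod, Nat.mod_eq_of_lt haq]
    have a2 : (q * m + a) / q = m := by
      rw [Nat.mul_add_div hq, Nat.div_eq_of_lt haq, add_zero]
    simp only [a1, a2, if_true]
  have hser : ∀ z ∈ ball (0 : ℂ) 1, HasSum (fun m => ν 0 m * z ^ m) (K (0, z) ^ a) := by
    intro z hz
    have h1 := hS.2 0 h01 z hz
    have hinj : Function.Injective (fun b : ℕ => ((0 : ℕ), b)) := fun a b h => by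
      simpa using h
    have h2 := (hinj.hasSum_iff (f := fun p : ℕ × ℕ => ν p.1 p.2 * (0 : ℂ) ^ p.1 * z ^ p.2)
      (a := K (0, z) ^ a) (by
        intro p hp
        have h3 : p.1 ≠ 0 := by
          intro h4
          exact hp ⟨p.2, by rw [← h4]⟩
        rw [zero_pow h3, mul_zero, zero_mul])).2 h1
    refine h2.congr_fun ?_ |> fun h => h
    intro m
    simp
  have hs : ∀ v ∈ ball (0 : ℂ) 1, HasSum (fun n => c n * v ^ n) (g v ^ a) := by
    intro v hv
    have h1 := (hser (v ^ q) (hv2 v hv)).mul_left (v ^ a)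
    rw [hg' v, mul_pow]
    have hinj : Function.Injective (fun m : ℕ => q * m + a) := fun x y h => by
      simp only at h
      exact Nat.eq_of_mul_eq_mul_left hq (by omega)
    refine (hinj.hasSum_iff (f := fun n => c n * v ^ n) (by
      intro n hn
      have h3 : n % q ≠ a := by
        intro h4
        refine hn ⟨n / q, ?_⟩
        show q * (n / q) + a = n
        rw [← h4]
        exact Nat.div_add_mod n q
      rw [hc]
      simp only [h3, if_false, zero_mul])).1 ?_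
    refine h1.congr_fun ?_ |> fun h => h
    intro m
    simp only [Function.comp]
    rw [hc1, pow_add, pow_mul]
    ring
  have hsq : ∀ v ∈ ball (0 : ℂ) 1, g v ^ q = F (v ^ q) := by
    intro v hv
    have h1 := hK.pow 0 h01 (v ^ q) (hv2 v hv)
    rw [hF.zero, sub_zero, sub_zero] at h1
    rw [hg' v, ← h1, mul_pow]
    ring
  have hd : DifferentiableOn ℂ g (ball 0 1) := by
    rw [hg]
    refine differentiableOn_id.mul (hK.diff.comp (f := fun v : ℂ => ((0 : ℂ), v ^ q)) ?_ ?_)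
    · fun_prop
    · intro v hv
      exact ⟨h01, hv2 v hv⟩
  have hi : InjOn g (ball 0 1) := by
    intro v hv u hu h
    have h1 : F (v ^ q) = F (u ^ q) := by rw [← hsq v hv, ← hsq u hu, h]
    have h2 := hF.inj (hv2 v hv) (hv2 u hu) h1
    by_cases hu0 : u = 0
    · rw [hu0, zero_pow hqn] at h2
      rw [hu0]
      exact pow_eq_zero_iff hqn |>.1 h2
    · have h3 : K (0, u ^ q) ≠ 0 := by
        intro h4
        have h5 : F (u ^ q) = F 0 := by
          rw [← hsq u hu, hg', h4, mul_zero, zero_pow hqn, hF.zero]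
        have h6 := hF.inj (hv2 u hu) h01 h5
        exact hu0 (pow_eq_zero_iff hqn |>.1 h6)
      rw [hg', hg', h2] at h
      exact mul_right_cancel₀ h3 h
  have hr0 : 0 < r ^ ((q : ℝ)⁻¹) := Real.rpow_pos_of_pos hr.1 _
  have hr1 : r ^ ((q : ℝ)⁻¹) < 1 := Real.rpow_lt_one hr.1.le hr.2 (by positivity)
  have hrr : (r ^ ((q : ℝ)⁻¹)) ^ q = r := Real.rpow_inv_natCast_pow hr.1.le hqn
  have hLL : ∀ z : ℂ, ‖z‖ < r ^ ((q : ℝ)⁻¹) → ‖g z‖ ≤ M ^ ((q : ℝ)⁻¹) := by
    intro z hz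
    have hz1 : z ∈ ball (0 : ℂ) 1 := mem_ball_zero_iff.2 (hz.trans hr1)
    have h2 : ‖g z‖ ^ q ≤ M := by
      rw [← norm_pow, hsq z hz1]
      refine hM _ ?_
      rw [norm_pow, ← hrr]
      exact pow_le_pow_left₀ (norm_nonneg _) hz.le q
    calc ‖g z‖ = (‖g z‖ ^ q) ^ ((q : ℝ)⁻¹) := (Real.pow_rpow_inv_natCast (norm_nonneg _) hqn).symm
      _ ≤ M ^ ((q : ℝ)⁻¹) := Real.rpow_le_rpow (by positivity) h2 (by positivity)
  obtain ⟨b, rfl⟩ : ∃ b, a = b + 1 := ⟨a - 1, by omega⟩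
  have hL0 : 0 ≤ M ^ ((q : ℝ)⁻¹) := Real.rpow_nonneg hM0 _
  have hdh : DifferentiableOn ℂ (fun v => g v ^ (b + 1)) (ball 0 1) := hd.pow (b + 1)
  have h1 := area_le2 hs hdh hr0 hr1 (by positivity) (image_area2 hd hi hr1 hL0 hLL b) (q * N)
  have e1 : (M ^ ((q : ℝ)⁻¹)) ^ (2 * b + 2) = M ^ (2 * sx (b + 1) q) := by
    rw [← Real.rpow_natCast, ← Real.rpow_mul hM0]
    congr 1
    unfold sx
    push_cast
    field_simp
  rw [e1] at h1
  have e2 : ∑ m ∈ Finset.range N, (q : ℝ) * (((m : ℝ) + sx (b + 1) q) * ‖ν 0 m‖ ^ 2 *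
      r ^ (2 * ((m : ℝ) + sx (b + 1) q))) ≤
      ∑ n ∈ Finset.range (q * N), (n : ℝ) * ‖c n‖ ^ 2 * (r ^ ((q : ℝ)⁻¹)) ^ (2 * n) := by
    have hinj : Set.InjOn (fun m : ℕ => q * m + (b + 1)) (Finset.range N : Set ℕ) := fun x _ y _ h => by
      simp only at h
      exact Nat.eq_of_mul_eq_mul_left hq (by omega)
    calc ∑ m ∈ Finset.range N, (q : ℝ) * (((m : ℝ) + sx (b + 1) q) * ‖ν 0 m‖ ^ 2 *
          r ^ (2 * ((m : ℝ) + sx (b + 1) q)))
        = ∑ m ∈ Finset.range N, ((q * m + (b + 1) : ℕ) : ℝ) * ‖c (q * m + (b + 1))‖ ^ 2 *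
          (r ^ ((q : ℝ)⁻¹)) ^ (2 * (q * m + (b + 1))) := by
          refine Finset.sum_congr rfl fun m _ => ?_
          have e3 : (r ^ ((q : ℝ)⁻¹)) ^ (2 * (q * m + (b + 1))) =
              r ^ (2 * ((m : ℝ) + sx (b + 1) q)) := by
            rw [← Real.rpow_natCast, ← Real.rpow_mul hr.1.le]
            congr 1
            unfold sx
            push_cast
            field_simp
          rw [e3, hc1]
          have e4 : ((q * m + (b + 1) : ℕ) : ℝ) = q * ((m : ℝ) + sx (b + 1) q) := by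
            unfold sx
            push_cast
            field_simp
          rw [e4]
          ring
      _ = ∑ n ∈ (Finset.range N).image (fun m : ℕ => q * m + (b + 1)),
          (n : ℝ) * ‖c n‖ ^ 2 * (r ^ ((q : ℝ)⁻¹)) ^ (2 * n) :=
          (Finset.sum_image (f := fun n : ℕ => (n : ℝ) * ‖c n‖ ^ 2 *
            (r ^ ((q : ℝ)⁻¹)) ^ (2 * n)) hinj).symm
      _ ≤ _ := by
          refine Finset.sum_le_sum_of_subset_of_nonneg ?_ fun n _ _ => by positivity
          intro n hn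
          obtain ⟨m, hm, rfl⟩ := Finset.mem_image.1 hn
          rw [Finset.mem_range] at hm ⊢
          have : q * (m + 1) ≤ q * N := Nat.mul_le_mul_left _ hm
          rw [mul_add, mul_one] at this
          omega
  rw [← Finset.mul_sum] at e2
  have e5 := e2.trans h1
  have hMs : 0 ≤ M ^ (2 * sx (b + 1) q) := Real.rpow_nonneg hM0 _
  have hbq : ((b : ℝ) + 1) ≤ q := by exact_mod_cast haq.le
  have e6 : (q : ℝ) * ∑ m ∈ Finset.range N, ((m : ℝ) + sx (b + 1) q) * ‖ν 0 m‖ ^ 2 *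
      r ^ (2 * ((m : ℝ) + sx (b + 1) q)) ≤ q * M ^ (2 * sx (b + 1) q) :=
    e5.trans (mul_le_mul_of_nonneg_right hbq hMs)
  exact le_of_mul_le_mul_left e6 hqR

end Pool.Agent.H64.SL
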