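import Pool.Agent.H64.SL.Stm

set_option autoImplicit false

/-! SL-HOL (helper10): the means increase with the exponent -/

namespace Pool.Agent.H64.SL

open Metric Set Filter Topology MeasureTheory

namespace HOLaux

theorem avg (h : ℝ → ℝ) : (2 * Real.pi)⁻¹ * ∫ t in (0 : ℝ)..(2 * Real.pi), h t =
    ⨍ t in Ioc (0 : ℝ) (2 * Real.pi), h t := by
  have h0 : (0 : ℝ) ≤ 2 * Real.pi := by positivity
  rw [setAverage_eq, intervalIntegral.integral_of_le h0, Real.volume_real_Ioc_of_le h0, sub_zero,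
    smul_eq_mul]

theorem cont (f : ℂ → ℂ) (r : ℝ) (hf : DifferentiableOn ℂ f (ball 0 1)) (hr : r ∈ Ioo (0 : ℝ) 1) :
    Continuous fun t : ℝ => ‖deriv f (circleMap 0 r t)‖ := by
  have h1 : ContinuousOn (deriv f) (ball (0 : ℂ) 1) := (hf.deriv isOpen_ball).continuousOn
  refine (h1.comp_continuous (continuous_circleMap 0 r) fun t => ?_).norm
  rw [mem_ball, dist_zero_right, norm_circleMap_zero, abs_of_pos hr.1]
  exact hr.2

end HOLaux

open HOLaux

theorem hol : S_HOL := by
  intro f l l' r hf hl hll hr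
  have hl' : 0 < l' := hl.trans_le hll
  have hg := cont f r hf hr
  set g : ℝ → ℝ := fun t => ‖deriv f (circleMap 0 r t)‖ with hgd
  have hg0 : ∀ t, 0 ≤ g t := fun t => norm_nonneg _
  have hc1 : Continuous fun t => g t ^ l := hg.rpow_const fun t => Or.inr hl.le
  have hc2 : Continuous fun t => (g t ^ l) ^ (l' / l) :=
    hc1.rpow_const fun t => Or.inr (div_nonneg hl'.le hl.le)
  have hπ : (0 : ℝ) < 2 * Real.pi := by positivity
  have hJ : (⨍ t in Ioc (0 : ℝ) (2 * Real.pi), g t ^ l) ^ (l' / l) ≤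
      ⨍ t in Ioc (0 : ℝ) (2 * Real.pi), (g t ^ l) ^ (l' / l) := by
    refine (convexOn_rpow ((one_le_div hl).2 hll)).map_set_average_le (s := Ici 0)
      (fun x hx => (Real.continuousAt_rpow_const _ _ (Or.inr (by positivity))).continuousWithinAt)
      isClosed_Ici ?_ ?_ (Eventually.of_forall fun t => Real.rpow_nonneg (hg0 t) l) ?_ ?_
    · rw [Real.volume_Ioc]
      simpa using hπ
    · rw [Real.volume_Ioc]
      exact ENNReal.ofReal_ne_top
    · exact hc1.integrableOn_Ioc
    · exact hc2.integrableOn_Ioc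
  have e2 : ∀ t, (g t ^ l) ^ (l' / l) = g t ^ l' := by
    intro t
    rw [← Real.rpow_mul (hg0 t), mul_div_cancel₀ _ hl.ne']
  simp only [e2] at hJ
  have hA0 : 0 ≤ ⨍ t in Ioc (0 : ℝ) (2 * Real.pi), g t ^ l := by
    rw [← avg]
    exact mul_nonneg (by positivity)
      (intervalIntegral.integral_nonneg hπ.le fun t _ => Real.rpow_nonneg (hg0 t) l)
  unfold IM
  rw [avg, avg]
  have h1 := Real.rpow_le_rpow (Real.rpow_nonneg hA0 _) hJ (by positivity : (0 : ℝ) ≤ 1 / l')
  rw [← Real.rpow_mul hA0] at h1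
  have e3 : l' / l * (1 / l') = 1 / l := by field_simp
  rw [e3] at h1
  exact h1

end Pool.Agent.H64.SL
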