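import Pool.Agent.H64.SL.Stm

/-! # SL-KOE: the Koebe function (helper32) -/

set_option autoImplicit false

namespace Pool.Agent.H64.SL

open Metric Set Filter Topology MeasureTheory

namespace KOE

theorem ne_one {z : ℂ} (hz : z ∈ ball (0 : ℂ) 1) : (1 - z : ℂ) ≠ 0 := by
  intro h
  have h1 : z = 1 := (sub_eq_zero.1 h).symm
  rw [h1, mem_ball_zero_iff, norm_one] at hz
  exact lt_irrefl _ hz

theorem dk {z : ℂ} (hz : (1 - z : ℂ) ≠ 0) :
    HasDerivAt (fun z : ℂ => z / (1 - z) ^ 2) ((1 + z) / (1 - z) ^ 3) z := by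
  have h1 : HasDerivAt (fun z : ℂ => (1 - z) ^ 2) (2 * (1 - z) * (-1)) z := by
    have h2 : HasDerivAt (fun z : ℂ => 1 - z) (-1) z := (hasDerivAt_id z).const_sub 1
    have h3 := h2.fun_pow 2
    have e : ((2 : ℕ) : ℂ) * (1 - z) ^ (2 - 1) * (-1) = 2 * (1 - z) * (-1) := by norm_num
    rw [e] at h3
    exact h3
  have h3 := (hasDerivAt_id z).div h1 (pow_ne_zero 2 hz)
  have e : (1 * (1 - z) ^ 2 - id z * (2 * (1 - z) * (-1))) / ((1 - z) ^ 2) ^ 2 =
      (1 + z) / (1 - z) ^ 3 := by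
    simp only [id]
    field_simp
    ring
  rw [e] at h3
  exact h3

theorem inj : InjOn (fun z : ℂ => z / (1 - z) ^ 2) (ball 0 1) := by
  intro z hz w hw h
  have h1 := ne_one hz
  have h2 := ne_one hw
  simp only at h
  rw [div_eq_div_iff (pow_ne_zero 2 h1) (pow_ne_zero 2 h2)] at h
  have h3 : (z - w) * (1 - z * w) = 0 := by linear_combination h
  rcases mul_eq_zero.1 h3 with h4 | h4
  · exact sub_eq_zero.1 h4
  · exfalso
    have h5 : z * w = 1 := (sub_eq_zero.1 h4).symm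
    have h6 : ‖z‖ * ‖w‖ = 1 := by rw [← norm_mul, h5, norm_one]
    rw [mem_ball_zero_iff] at hz hw
    have h7 := mul_lt_one_of_nonneg_of_lt_one_left (norm_nonneg z) hz hw.le
    linarith

theorem lower (r t : ℝ) (hr : r ∈ Ioo (1 / 2 : ℝ) 1) (ht : t ∈ Icc (0 : ℝ) (1 - r)) :
    1 / 8 * (1 - r) ^ (-3 : ℝ) ≤ ‖deriv (fun z : ℂ => z / (1 - z) ^ 2) (circleMap 0 r t)‖ := by
  have hr0 : 0 < 1 - r := by linarith [hr.2]
  have hrp : 0 < r := by linarith [hr.1]
  have hz : circleMap 0 r t ∈ ball (0 : ℂ) 1 := by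
    rw [mem_ball_zero_iff, norm_circleMap_zero, abs_of_pos hrp]
    exact hr.2
  rw [(dk (ne_one hz)).deriv, norm_div, norm_pow]
  have e1 : (circleMap 0 r t) = ((r * Real.cos t : ℝ) : ℂ) + ((r * Real.sin t : ℝ) : ℂ) * Complex.I := by
    rw [circleMap_zero, Complex.exp_mul_I]
    push_cast
    ring
  have hc : 1 - t ^ 2 / 2 ≤ Real.cos t := Real.one_sub_sq_div_two_le_cos
  have hre : (circleMap 0 r t).re = r * Real.cos t := by
    rw [e1, Complex.add_re, Complex.ofReal_re, Complex.re_ofReal_mul, Complex.I_re, mul_zero, add_zero]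
  have him : (circleMap 0 r t).im = r * Real.sin t := by
    rw [e1, Complex.add_im, Complex.ofReal_im, Complex.im_ofReal_mul, Complex.I_im, mul_one, zero_add]
  have ht1 : t ≤ 1 / 2 := by linarith [ht.2, hr.1]
  have hcpos : 0 ≤ Real.cos t := by nlinarith [ht.1]
  have h1 : 1 ≤ ‖1 + circleMap 0 r t‖ := by
    have h2 := Complex.re_le_norm (1 + circleMap 0 r t)
    rw [Complex.add_re, Complex.one_re, hre] at h2
    nlinarith [mul_nonneg hrp.le hcpos]
  have h2 : ‖1 - circleMap 0 r t‖ ≤ 2 * (1 - r) := by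
    have h3 : ‖1 - circleMap 0 r t‖ ^ 2 ≤ (2 * (1 - r)) ^ 2 := by
      rw [← Complex.normSq_eq_norm_sq, Complex.normSq_apply]
      simp only [Complex.sub_re, Complex.one_re, Complex.sub_im, Complex.one_im, hre, him]
      have h4 := Real.sin_sq_add_cos_sq t
      have h5 : t ^ 2 ≤ (1 - r) ^ 2 := pow_le_pow_left₀ ht.1 ht.2 2
      have h6 : (1 - r * Real.cos t) * (1 - r * Real.cos t) + (0 - r * Real.sin t) * (0 - r * Real.sin t) =
          (1 - r) ^ 2 + 2 * r * (1 - Real.cos t) := by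
        linear_combination r ^ 2 * h4
      rw [h6]
      have h7 : 2 * r * (1 - Real.cos t) ≤ 2 * 1 * (t ^ 2 / 2) := by
        apply mul_le_mul
        · linarith [hr.2]
        · linarith
        · linarith [Real.cos_le_one t]
        · norm_num
      nlinarith
    exact abs_le_of_sq_le_sq' h3 (by positivity) |>.2
  have h3 : 0 < ‖1 - circleMap 0 r t‖ := norm_pos_iff.2 (ne_one hz)
  have e2 : 1 / 8 * (1 - r) ^ (-3 : ℝ) = 1 / (2 * (1 - r)) ^ 3 := by
    rw [show (-3 : ℝ) = ((-3 : ℤ) : ℝ) by norm_num, Real.rpow_intCast]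
    rw [zpow_neg, mul_pow]
    norm_num
    ring
  rw [e2]
  exact div_le_div₀ (by positivity) h1 (by positivity) (pow_le_pow_left₀ h3.le h2 3)

theorem cont (r l : ℝ) (hr : r ∈ Ioo (1 / 2 : ℝ) 1) (hl : 0 < l) :
    Continuous fun t : ℝ => ‖deriv (fun z : ℂ => z / (1 - z) ^ 2) (circleMap 0 r t)‖ ^ l := by
  have hrp : 0 < r := by linarith [hr.1]
  have hz : ∀ t, circleMap 0 r t ∈ ball (0 : ℂ) 1 := by
    intro t
    rw [mem_ball_zero_iff, norm_circleMap_zero, abs_of_pos hrp]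
    exact hr.2
  have e : (fun t : ℝ => ‖deriv (fun z : ℂ => z / (1 - z) ^ 2) (circleMap 0 r t)‖ ^ l) =
      fun t : ℝ => ‖(1 + circleMap 0 r t) / (1 - circleMap 0 r t) ^ 3‖ ^ l := by
    funext t
    rw [(dk (ne_one (hz t))).deriv]
  rw [e]
  refine Continuous.rpow_const ?_ fun _ => Or.inr hl.le
  refine Continuous.norm ?_
  exact (continuous_const.add (continuous_circleMap 0 r)).div
    ((continuous_const.sub (continuous_circleMap 0 r)).pow 3) fun t => pow_ne_zero 3 (ne_one (hz t))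

end KOE

theorem koe : S_KOE := by
  refine ⟨fun z hz => (KOE.dk (KOE.ne_one hz)).differentiableAt.differentiableWithinAt, KOE.inj, ?_⟩
  intro l hl
  refine ⟨((2 * Real.pi)⁻¹) ^ (1 / l) * (1 / 8), by positivity, ?_⟩
  intro r hr
  have hr0 : 0 < 1 - r := by linarith [hr.2]
  unfold IM
  have h1 : (1 - r) * (1 / 8 * (1 - r) ^ (-3 : ℝ)) ^ l ≤
      ∫ t in (0 : ℝ)..(2 * Real.pi), ‖deriv (fun z : ℂ => z / (1 - z) ^ 2) (circleMap 0 r t)‖ ^ l := by
    have hpi := Real.pi_gt_three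
    have h2 : ∫ t in (0 : ℝ)..(1 - r), (1 / 8 * (1 - r) ^ (-3 : ℝ)) ^ l ≤
        ∫ t in (0 : ℝ)..(1 - r), ‖deriv (fun z : ℂ => z / (1 - z) ^ 2) (circleMap 0 r t)‖ ^ l := by
      apply intervalIntegral.integral_mono_on hr0.le
      · exact intervalIntegrable_const
      · exact (KOE.cont r l hr hl).intervalIntegrable _ _
      · intro t ht
        exact Real.rpow_le_rpow (by positivity) (KOE.lower r t hr ht) hl.le
    rw [intervalIntegral.integral_const, smul_eq_mul, sub_zero] at h2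
    refine h2.trans ?_
    apply intervalIntegral.integral_mono_interval le_rfl hr0.le (by linarith [hr.1])
    · exact Eventually.of_forall fun t => by positivity
    · exact (KOE.cont r l hr hl).intervalIntegrable _ _
  have h3 : ((2 * Real.pi)⁻¹) * ((1 - r) * (1 / 8 * (1 - r) ^ (-3 : ℝ)) ^ l) ≤
      (2 * Real.pi)⁻¹ *
        ∫ t in (0 : ℝ)..(2 * Real.pi), ‖deriv (fun z : ℂ => z / (1 - z) ^ 2) (circleMap 0 r t)‖ ^ l :=
    mul_le_mul_of_nonneg_left h1 (by positivity)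
  have h4 := Real.rpow_le_rpow (by positivity) h3 (by positivity : (0 : ℝ) ≤ 1 / l)
  refine le_trans (le_of_eq ?_) h4
  rw [Real.mul_rpow (by positivity) (by positivity), Real.mul_rpow hr0.le (by positivity),
    ← Real.rpow_mul (by positivity), mul_one_div_cancel hl.ne', Real.rpow_one,
    show -(3 - 1 / l) = 1 / l + (-3 : ℝ) by ring, Real.rpow_add hr0]
  ring

end Pool.Agent.H64.SL
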