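import Pool.Agent.H64.SL.Stm

set_option autoImplicit false

/-! # SL-LOW (helper3, after helper1's `H7/SZ/LOW.lean`): the negative part is finite -/

namespace Pool.Agent.H64.SL

open Metric Set Filter Topology MeasureTheory
open scoped ENNReal
open Pool.Agent.H64.CX (bt rr TP TN GD SN)

namespace LOW1

theorem sum_pow {e : ℝ} (he : e < -1) : Summable fun k : ℕ => ((k : ℝ) + 1) ^ e := by
  have h2 : Summable fun k : ℕ => ((k : ℝ)) ^ e := Real.summable_nat_rpow.2 he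
  have h3 := (summable_nat_add_iff 1).2 h2
  refine h3.congr fun m => ?_
  push_cast
  rfl

theorem TN_bound (hB : Pool.Agent.H64.CX.S_BTU) {s : ℝ} (hs : 0 < s) (ν : ℕ → ℕ → ℂ) (m : ℕ) :
    ∃ D : ℝ, 0 ≤ D ∧ ∀ k : ℕ,
    ‖TN (-(s : ℂ)) ν (k + 1) m‖ ≤ D * ((k : ℝ) + 1) ^ (-s - 1 : ℝ) := by
  obtain ⟨C, hC0, hC⟩ := hB (-(s : ℂ))
  have hre : (-(s : ℂ)).re = -s := by simp
  rw [hre] at hC
  refine ⟨(∑ b ∈ Finset.range (m + 1), ‖ν (m - b) b‖) * C,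
    mul_nonneg (Finset.sum_nonneg fun _ _ => norm_nonneg _) hC0, fun k => ?_⟩
  unfold TN
  refine (norm_sum_le _ _).trans ?_
  rw [Finset.sum_mul, Finset.sum_mul]
  refine Finset.sum_le_sum fun b _ => ?_
  rw [norm_mul, mul_assoc]
  refine mul_le_mul_of_nonneg_left ((hC _).trans ?_) (norm_nonneg _)
  refine mul_le_mul_of_nonneg_left ?_ hC0
  apply Real.rpow_le_rpow_of_nonpos (by positivity) _ (by linarith)
  push_cast
  linarith [(Nat.cast_nonneg b : (0 : ℝ) ≤ b)]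

end LOW1

open LOW1

theorem low : S_LOW := by
  intro hB s σ hs0 hs1 hσ ν m
  obtain ⟨D, hD0, hD⟩ := TN_bound hB hs0 ν m
  obtain ⟨μ, hμ⟩ : ∃ μ : ℝ, μ = σ - 2 * s := ⟨_, rfl⟩
  rw [← hμ]
  obtain ⟨E, hE⟩ : ∃ E : ℝ, E = ((m : ℝ) + 2) ^ |μ| := ⟨_, rfl⟩
  have hm0 : (0 : ℝ) ≤ m := Nat.cast_nonneg m
  have hE0 : 1 ≤ E := by
    rw [hE]
    exact Real.one_le_rpow (by linarith) (abs_nonneg _)
  have hS : Summable fun k : ℕ => E * D ^ 2 * ((k : ℝ) + 1) ^ (-(1 + σ)) :=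
    (sum_pow (by linarith)).mul_left _
  have hterm : ∀ k : ℕ, ((k : ℝ) + 1 - s) * wt μ (m + k + 1) * ‖TN (-(s : ℂ)) ν (k + 1) m‖ ^ 2 ≤
      E * D ^ 2 * ((k : ℝ) + 1) ^ (-(1 + σ)) := by
    intro k
    have hk1 : (0 : ℝ) < (k : ℝ) + 1 := by positivity
    have hk0 : (0 : ℝ) ≤ k := Nat.cast_nonneg k
    have h1 : wt μ (m + k + 1) ≤ E * ((k : ℝ) + 1) ^ (-μ) := by
      unfold wt
      have h4 : 0 ≤ ((k : ℝ) + 1) ^ (-μ) := by positivity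
      rcases le_total 0 μ with hs | hs
      · have h3 : (((m + k + 1 : ℕ) : ℝ) + 1) ^ (-μ) ≤ ((k : ℝ) + 1) ^ (-μ) := by
          apply Real.rpow_le_rpow_of_nonpos hk1 _ (by linarith)
          push_cast
          linarith
        nlinarith
      · rw [hE, abs_of_nonpos hs, ← Real.mul_rpow (by positivity) (by positivity)]
        refine Real.rpow_le_rpow (by positivity) ?_ (by linarith)
        push_cast
        nlinarith
    have h2 : ‖TN (-(s : ℂ)) ν (k + 1) m‖ ^ 2 ≤ (D * ((k : ℝ) + 1) ^ (-s - 1 : ℝ)) ^ 2 :=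
      pow_le_pow_left₀ (norm_nonneg _) (hD k) 2
    have h3 : ((k : ℝ) + 1) * ((k : ℝ) + 1) ^ (-μ) *
        (((k : ℝ) + 1) ^ (-s - 1 : ℝ) * ((k : ℝ) + 1) ^ (-s - 1 : ℝ)) =
        ((k : ℝ) + 1) ^ (-(1 + σ)) := by
      calc ((k : ℝ) + 1) * ((k : ℝ) + 1) ^ (-μ) *
            (((k : ℝ) + 1) ^ (-s - 1 : ℝ) * ((k : ℝ) + 1) ^ (-s - 1 : ℝ)) =
            ((k : ℝ) + 1) ^ (1 : ℝ) * ((k : ℝ) + 1) ^ (-μ) *
            (((k : ℝ) + 1) ^ (-s - 1 : ℝ) * ((k : ℝ) + 1) ^ (-s - 1 : ℝ)) := by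
            rw [Real.rpow_one]
        _ = _ := by
          rw [← Real.rpow_add hk1, ← Real.rpow_add hk1, ← Real.rpow_add hk1]
          congr 1
          rw [hμ]
          ring
    have hw0 : 0 ≤ wt μ (m + k + 1) := by unfold wt; positivity
    calc ((k : ℝ) + 1 - s) * wt μ (m + k + 1) * ‖TN (-(s : ℂ)) ν (k + 1) m‖ ^ 2 ≤
          (((k : ℝ) + 1) * (E * ((k : ℝ) + 1) ^ (-μ))) *
            (D * ((k : ℝ) + 1) ^ (-s - 1 : ℝ)) ^ 2 := by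
          refine mul_le_mul ?_ h2 (sq_nonneg _) (by positivity)
          exact mul_le_mul (by linarith) h1 hw0 hk1.le
      _ = E * D ^ 2 * (((k : ℝ) + 1) * ((k : ℝ) + 1) ^ (-μ) *
          (((k : ℝ) + 1) ^ (-s - 1 : ℝ) * ((k : ℝ) + 1) ^ (-s - 1 : ℝ))) := by ring
      _ = _ := by rw [h3]
  have h : RR s μ ν m ≤ ENNReal.ofReal (∑' k : ℕ, E * D ^ 2 * ((k : ℝ) + 1) ^ (-(1 + σ))) := by
    unfold RR
    calc _ ≤ ∑' k : ℕ, ENNReal.ofReal (E * D ^ 2 * ((k : ℝ) + 1) ^ (-(1 + σ))) :=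
          ENNReal.tsum_le_tsum fun k => ENNReal.ofReal_le_ofReal (hterm k)
      _ = _ := (ENNReal.ofReal_tsum_of_nonneg (fun k => by positivity) hS).symm
  exact ne_top_of_le_ne_top ENNReal.ofReal_ne_top h

end Pool.Agent.H64.SL
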