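import Pool.Agent.H64.SL.Stm
import Pool.Agent.H64.BR.Pars33

set_option autoImplicit false

namespace Pool.Agent.H64.SL

open Metric Set Filter Topology MeasureTheory
open scoped ENNReal

/-- a block of length `K` -/
theorem MNAux.block {β : ℝ} (hβ1 : β ≤ 1) {b : ℕ → ℝ} {B x : ℝ} (hb : ∀ j, 0 ≤ b j) (hB : 0 ≤ B) (hx0 : 0 ≤ x) (hx1 : x ≤ 1)
    {K : ℕ} (hK : 1 ≤ K) (hxK : x ^ K ≤ 1 / 2)
    (hA : ∀ M : ℕ, 1 ≤ M → ∑ m ∈ Finset.range M, b m ≤ B * (M : ℝ) ^ β) (i : ℕ) :
    ∑ j ∈ Finset.range (i * K), x ^ j * b j ≤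
      B * (K : ℝ) ^ β * (4 - (2 * (i : ℝ) + 4) * (1 / 2) ^ i) := by
  induction i with
  | zero => simp
  | succ i ih =>
    rw [Nat.succ_mul, Finset.sum_range_add]
    have h1 : ∑ j ∈ Finset.range K, x ^ (i * K + j) * b (i * K + j) ≤
        (1 / 2) ^ i * (B * (((i : ℝ) + 1) * (K : ℝ) ^ β)) := by
      calc ∑ j ∈ Finset.range K, x ^ (i * K + j) * b (i * K + j)
          ≤ ∑ j ∈ Finset.range K, (1 / 2) ^ i * b (i * K + j) := by
            refine Finset.sum_le_sum fun j _ => mul_le_mul_of_nonneg_right ?_ (hb _)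
            rw [pow_add, mul_comm i K, pow_mul]
            calc (x ^ K) ^ i * x ^ j ≤ (1 / 2) ^ i * 1 :=
                  mul_le_mul (pow_le_pow_left₀ (pow_nonneg hx0 K) hxK i) (pow_le_one₀ hx0 hx1)
                    (pow_nonneg hx0 j) (by positivity)
              _ = _ := mul_one _
        _ = (1 / 2) ^ i * ∑ j ∈ Finset.range K, b (i * K + j) := by rw [Finset.mul_sum]
        _ ≤ (1 / 2) ^ i * ∑ j ∈ Finset.range (i * K + K), b j := by
            refine mul_le_mul_of_nonneg_left ?_ (by positivity)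
            rw [Finset.sum_range_add]
            have := Finset.sum_nonneg fun j (_ : j ∈ Finset.range (i * K)) => hb j
            linarith
        _ ≤ (1 / 2) ^ i * (B * ((i * K + K : ℕ) : ℝ) ^ β) :=
            mul_le_mul_of_nonneg_left (hA _ (by omega)) (by positivity)
        _ ≤ _ := by
            refine mul_le_mul_of_nonneg_left (mul_le_mul_of_nonneg_left ?_ hB) (by positivity)
            have h2 : ((i * K + K : ℕ) : ℝ) = ((i : ℝ) + 1) * K := by push_cast; ring
            rw [h2, Real.mul_rpow (by positivity) (by positivity)]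
            refine mul_le_mul_of_nonneg_right ?_ (by positivity)
            calc ((i : ℝ) + 1) ^ β ≤ ((i : ℝ) + 1) ^ (1 : ℝ) :=
                  Real.rpow_le_rpow_of_exponent_le (by linarith [(Nat.cast_nonneg i : (0:ℝ) ≤ i)])
                    hβ1
              _ = _ := Real.rpow_one _
    refine (add_le_add ih h1).trans (le_of_eq ?_)
    push_cast
    rw [pow_succ]
    ring

theorem mn : S_MN := by
  intro a g B β hB hβ0 hβ1 hs hA
  refine ⟨2 * Real.pi * (8 * B), by positivity, fun r hr => ?_⟩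
  have hπ := Real.pi_pos
  have hP := Pool.Agent.H64.BR.parsN (h := g) (b := a) hr.1.le fun z hz =>
    hs z (by rw [mem_ball_zero_iff, hz]; exact hr.2)
  set I : ℝ := ∫ t in (0:ℝ)..(2 * Real.pi), ‖g (circleMap 0 r t)‖ ^ 2 with hI
  have hr1 : 0 < 1 - r := by linarith [hr.2]
  set K : ℕ := ⌈1 / (1 - r)⌉₊ with hKdef
  have hK1 : 1 / (1 - r) ≤ (K : ℝ) := Nat.le_ceil _
  have hone : 1 ≤ 1 / (1 - r) := by
    rw [le_div_iff₀ hr1]
    linarith [hr.1]
  have hK : 1 ≤ K := by
    have : (1 : ℝ) ≤ K := hone.trans hK1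
    exact_mod_cast this
  have hK2 : (K : ℝ) ≤ 2 * (1 / (1 - r)) := by
    have := (Nat.ceil_lt_add_one (show 0 ≤ 1 / (1 - r) by positivity)).le
    linarith
  have hxK : (r ^ 2) ^ K ≤ 1 / 2 := by
    have h1 : r ≤ Real.exp (-(1 - r)) := by
      have := Real.add_one_le_exp (-(1 - r))
      linarith
    calc (r ^ 2) ^ K = r ^ K * r ^ K := by rw [← pow_mul, mul_comm 2 K, pow_mul, sq]
      _ ≤ r ^ K * 1 := mul_le_mul_of_nonneg_left (pow_le_one₀ hr.1.le hr.2.le) (pow_nonneg hr.1.le _)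
      _ = r ^ K := mul_one _
      _ ≤ Real.exp (-(1 - r)) ^ K := pow_le_pow_left₀ hr.1.le h1 K
      _ = Real.exp (-((K : ℝ) * (1 - r))) := by rw [← Real.exp_nat_mul]; ring_nf
      _ ≤ Real.exp (-1) := by
          apply Real.exp_le_exp.2
          have := (div_le_iff₀ hr1).1 hK1
          linarith
      _ ≤ 1 / 2 := by
          rw [Real.exp_neg, one_div]
          refine inv_anti₀ (by norm_num) ?_
          have := Real.add_one_le_exp (1 : ℝ)
          linarith
  have h1 : (2 * Real.pi)⁻¹ * I ≤ 8 * B * (1 - r) ^ (-β) := by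
    refine le_of_tendsto hP.tendsto_sum_nat (Eventually.of_forall fun M => ?_)
    have hx0 : 0 ≤ r ^ 2 := sq_nonneg r
    have hx1 : r ^ 2 ≤ 1 := pow_le_one₀ hr.1.le hr.2.le
    have h2 := MNAux.block hβ1 (b := fun j => ‖a j‖ ^ 2) (fun j => sq_nonneg _) hB hx0 hx1 hK hxK hA M
    have h3 : ∑ j ∈ Finset.range M, (r ^ 2) ^ j * ‖a j‖ ^ 2 ≤
        ∑ j ∈ Finset.range (M * K), (r ^ 2) ^ j * ‖a j‖ ^ 2 := by
      refine Finset.sum_le_sum_of_subset_of_nonneg (Finset.range_mono (Nat.le_mul_of_pos_right M hK))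
        fun j _ _ => by positivity
    have h4 : B * (K : ℝ) ^ β * (4 - (2 * (M : ℝ) + 4) * (1 / 2) ^ M) ≤
        B * (K : ℝ) ^ β * 4 := by
      refine mul_le_mul_of_nonneg_left ?_ (by positivity)
      have : 0 ≤ (2 * (M : ℝ) + 4) * (1 / 2) ^ M := by positivity
      linarith
    have h5 : (K : ℝ) ^ β ≤ 2 * (1 - r) ^ (-β) := by
      calc (K : ℝ) ^ β ≤ (2 * (1 / (1 - r))) ^ β :=
            Real.rpow_le_rpow (by positivity) hK2 hβ0.le
        _ = 2 ^ β * (1 - r) ^ (-β) := by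
            rw [Real.mul_rpow (by norm_num) (by positivity), one_div, Real.inv_rpow hr1.le,
              Real.rpow_neg hr1.le]
        _ ≤ 2 ^ (1 : ℝ) * (1 - r) ^ (-β) := by
            refine mul_le_mul_of_nonneg_right ?_ (by positivity)
            exact Real.rpow_le_rpow_of_exponent_le (by norm_num) hβ1
        _ = _ := by rw [Real.rpow_one]
    calc ∑ j ∈ Finset.range M, (r ^ 2) ^ j * ‖a j‖ ^ 2 ≤ B * (K : ℝ) ^ β * 4 :=
          h3.trans (h2.trans h4)
      _ ≤ B * (2 * (1 - r) ^ (-β)) * 4 := by gcongr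
      _ = _ := by ring
  have h6 : I = 2 * Real.pi * ((2 * Real.pi)⁻¹ * I) := by field_simp
  calc I = 2 * Real.pi * ((2 * Real.pi)⁻¹ * I) := h6
    _ ≤ 2 * Real.pi * (8 * B * (1 - r) ^ (-β)) :=
        mul_le_mul_of_nonneg_left h1 (by positivity)
    _ = _ := by ring

end Pool.Agent.H64.SL
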