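import Pool.Agent.H64.SL.Stm
import Pool.Agent.H64.G.R_seed8.Helper240.ZFM.ConvA

set_option autoImplicit false

/-! SL-NRM (helper39): normalisation of a univalent function. -/

namespace Pool.Agent.H64.SL

open Metric Set Filter Topology MeasureTheory
open Pool.Agent.H7.SZ (Sc Se)

theorem nrm : S_NRM := by
  intro f hf hi
  have hne : ∀ z ∈ ball (0 : ℂ) 1, deriv f z ≠ 0 := fun z hz =>
    Pool.Agent.Helper405.Conv.deriv_ne_zero_of_injOn isOpen_ball hf hi hz
  have h0 : (0 : ℂ) ∈ ball (0 : ℂ) 1 := by simp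
  have hd0 : deriv f 0 ≠ 0 := hne 0 h0
  have hder : ∀ z ∈ ball (0 : ℂ) 1,
      deriv (fun z => (f z - f 0) / deriv f 0) z = deriv f z / deriv f 0 := by
    intro z hz
    have hz' : DifferentiableAt ℂ f z := hf.differentiableAt (isOpen_ball.mem_nhds hz)
    exact ((hz'.hasDerivAt.sub_const (f 0)).div_const (deriv f 0)).deriv
  refine ⟨hne, ⟨?_, ?_, ?_, ?_⟩, ?_⟩
  · exact (hf.sub_const _).div_const _
  · intro x hx y hy hxy
    apply hi hx hy
    have hxy' : (f x - f 0) / deriv f 0 = (f y - f 0) / deriv f 0 := hxy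
    rw [div_left_inj' hd0] at hxy'
    exact sub_left_inj.1 hxy'
  · simp
  · rw [hder 0 h0, div_self hd0]
  · intro z hz
    rw [hder z hz]
    field_simp

end Pool.Agent.H64.SL
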