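import Pool.Agent.H64.SL.Stm

/-! SL-PS: partial summation by dyadic blocks. -/

set_option autoImplicit false

namespace Pool.Agent.H64.SL

namespace PsAux

open Finset

theorem geo (θ : ℝ) (h0 : 0 ≤ θ) (h1 : θ < 1) (j N : ℕ) :
    ∑ i ∈ range N, (if i ≤ j then θ ^ (j - i) else θ ^ (i - j - 1)) ≤ 2 / (1 - θ) := by
  have hg : ∀ K : ℕ, ∑ i ∈ range K, θ ^ i ≤ 1 / (1 - θ) := by
    intro K
    have h := Summable.sum_le_tsum (f := fun m : ℕ => θ ^ m) (range K)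
      (fun m _ => pow_nonneg h0 m) (summable_geometric_of_lt_one h0 h1)
    rw [tsum_geometric_of_lt_one h0 h1] at h
    rw [one_div]
    exact h
  calc ∑ i ∈ range N, (if i ≤ j then θ ^ (j - i) else θ ^ (i - j - 1))
      ≤ ∑ i ∈ range (j + 1 + N), (if i ≤ j then θ ^ (j - i) else θ ^ (i - j - 1)) := by
        refine sum_le_sum_of_subset_of_nonneg (range_mono (by omega)) fun i _ _ => ?_
        split_ifs <;> exact pow_nonneg h0 _
    _ = ∑ i ∈ range (j + 1), (if i ≤ j then θ ^ (j - i) else θ ^ (i - j - 1)) +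
        ∑ i ∈ range N, (if j + 1 + i ≤ j then θ ^ (j - (j + 1 + i)) else
          θ ^ (j + 1 + i - j - 1)) := sum_range_add _ _ _
    _ = ∑ i ∈ range (j + 1), θ ^ i + ∑ i ∈ range N, θ ^ i := by
        congr 1
        · rw [← sum_range_reflect (fun i => θ ^ i) (j + 1)]
          refine sum_congr rfl fun i hi => ?_
          rw [mem_range] at hi
          rw [if_pos (by omega)]
          congr 1
        · refine sum_congr rfl fun i _ => ?_
          rw [if_neg (by omega)]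
          congr 1
          omega
    _ ≤ 1 / (1 - θ) + 1 / (1 - θ) := add_le_add (hg _) (hg _)
    _ = 2 / (1 - θ) := by ring

theorem expb (s x : ℝ) (hx : 1 ≤ x) : x ^ s * Real.exp (-x) ≤ (⌈s⌉₊.factorial : ℝ) := by
  have h1 : x ^ s ≤ x ^ (⌈s⌉₊ : ℝ) := Real.rpow_le_rpow_of_exponent_le hx (Nat.le_ceil s)
  rw [Real.rpow_natCast] at h1
  have h2 := Real.pow_div_factorial_le_exp x (by linarith) ⌈s⌉₊
  have h3 : x ^ ⌈s⌉₊ ≤ Real.exp x * (⌈s⌉₊.factorial : ℝ) := by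
    rwa [div_le_iff₀ (by positivity)] at h2
  calc x ^ s * Real.exp (-x) ≤ (Real.exp x * (⌈s⌉₊.factorial : ℝ)) * Real.exp (-x) :=
        mul_le_mul_of_nonneg_right (h1.trans h3) (Real.exp_pos _).le
    _ = (Real.exp x * Real.exp (-x)) * (⌈s⌉₊.factorial : ℝ) := by ring
    _ = (⌈s⌉₊.factorial : ℝ) := by rw [← Real.exp_add, add_neg_cancel, Real.exp_zero, one_mul]

theorem pw2 (a : ℝ) (d : ℕ) : ((2 : ℝ) ^ (-a)) ^ d = ((2 : ℝ) ^ d) ^ (-a) := by
  rw [← Real.rpow_natCast (2 ^ (-a)) d, ← Real.rpow_mul (by norm_num), ← Real.rpow_natCast 2 d,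
    ← Real.rpow_mul (by norm_num), mul_comm]

theorem term (a : ℝ) (ha : 0 < a) (M : ℕ) (hM : 1 ≤ M) (i : ℕ) :
    ((2 : ℝ) ^ i) ^ a * Real.exp (-(2 ^ i / (M : ℝ))) ≤
      (⌈2 * a⌉₊.factorial : ℝ) * (M : ℝ) ^ a *
        (if i ≤ Nat.log 2 M then ((2 : ℝ) ^ (-a)) ^ (Nat.log 2 M - i) else
          ((2 : ℝ) ^ (-a)) ^ (i - Nat.log 2 M - 1)) := by
  set j := Nat.log 2 M with hj
  have hj1 : 2 ^ j ≤ M := Nat.pow_log_le_self 2 (by omega)
  have hj2 : M < 2 ^ (j + 1) := Nat.lt_pow_succ_log_self (by norm_num) M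
  have hF : (1 : ℝ) ≤ (⌈2 * a⌉₊.factorial : ℝ) := by
    exact_mod_cast Nat.one_le_iff_ne_zero.2 (Nat.factorial_ne_zero _)
  have hM0 : (0 : ℝ) < M := by exact_mod_cast hM
  have hMa : 0 < (M : ℝ) ^ a := Real.rpow_pos_of_pos hM0 _
  split_ifs with h
  · obtain ⟨d, hd⟩ := Nat.exists_eq_add_of_le h
    have e0 : j - i = d := by omega
    rw [e0, pw2]
    have hd0 : (0 : ℝ) < 2 ^ d := by positivity
    have hi0 : (0 : ℝ) < 2 ^ i := by positivity
    have h1 : ((2 : ℝ) ^ i) ^ a * ((2 : ℝ) ^ d) ^ a ≤ (M : ℝ) ^ a := by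
      rw [← Real.mul_rpow hi0.le hd0.le, ← pow_add, ← hd]
      refine Real.rpow_le_rpow (by positivity) ?_ ha.le
      exact_mod_cast hj1
    have h2 : ((2 : ℝ) ^ d) ^ a * ((2 : ℝ) ^ d) ^ (-a) = 1 := by
      rw [← Real.rpow_add hd0, add_neg_cancel, Real.rpow_zero]
    have h3 : 0 < ((2 : ℝ) ^ d) ^ (-a) := Real.rpow_pos_of_pos hd0 _
    have h4 : ((2 : ℝ) ^ i) ^ a ≤ (M : ℝ) ^ a * ((2 : ℝ) ^ d) ^ (-a) := by
      have h5 := mul_le_mul_of_nonneg_right h1 h3.le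
      rw [mul_assoc, h2, mul_one] at h5
      exact h5
    have h5 : Real.exp (-(2 ^ i / (M : ℝ))) ≤ 1 := by
      rw [Real.exp_le_one_iff]
      have : 0 ≤ 2 ^ i / (M : ℝ) := by positivity
      linarith
    have h6 : 0 < ((2 : ℝ) ^ i) ^ a := Real.rpow_pos_of_pos hi0 _
    calc ((2 : ℝ) ^ i) ^ a * Real.exp (-(2 ^ i / (M : ℝ)))
        ≤ ((2 : ℝ) ^ i) ^ a * 1 := mul_le_mul_of_nonneg_left h5 h6.le
      _ = 1 * ((2 : ℝ) ^ i) ^ a := by ring
      _ ≤ (⌈2 * a⌉₊.factorial : ℝ) * ((M : ℝ) ^ a * ((2 : ℝ) ^ d) ^ (-a)) :=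
          mul_le_mul hF h4 h6.le (by linarith)
      _ = _ := by ring
  · obtain ⟨d, hd⟩ := Nat.exists_eq_add_of_lt (not_le.1 h)
    have e0 : i - j - 1 = d := by omega
    rw [e0, pw2]
    set x : ℝ := 2 ^ i / (M : ℝ) with hx
    have hd0 : (0 : ℝ) < 2 ^ d := by positivity
    have hd1 : (1 : ℝ) ≤ 2 ^ d := one_le_pow₀ (by norm_num)
    have hxd : (2 : ℝ) ^ d ≤ x := by
      rw [hx, le_div_iff₀ hM0]
      have h1 : 2 ^ d * M ≤ 2 ^ i := by
        have e1 : (2 : ℕ) ^ i = 2 ^ d * 2 ^ (j + 1) := by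
          rw [← pow_add]
          congr 1
          omega
        rw [e1]
        exact Nat.mul_le_mul_left _ hj2.le
      exact_mod_cast h1
    have hx1 : 1 ≤ x := hd1.trans hxd
    have hx0 : 0 < x := by linarith
    have e1 : ((2 : ℝ) ^ i) ^ a = (M : ℝ) ^ a * x ^ a := by
      rw [← Real.mul_rpow hM0.le hx0.le, hx, mul_div_cancel₀ _ hM0.ne']
    have e2 : x ^ a = x ^ (-a) * x ^ (2 * a) := by
      rw [← Real.rpow_add hx0]
      congr 1
      ring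
    have h1 := expb (2 * a) x hx1
    have h2 : x ^ (-a) ≤ ((2 : ℝ) ^ d) ^ (-a) :=
      Real.rpow_le_rpow_of_nonpos hd0 hxd (by linarith)
    have h3 : 0 ≤ x ^ (-a) := Real.rpow_nonneg hx0.le _
    have h4 : 0 ≤ ((2 : ℝ) ^ d) ^ (-a) := Real.rpow_nonneg hd0.le _
    calc ((2 : ℝ) ^ i) ^ a * Real.exp (-x)
        = (M : ℝ) ^ a * (x ^ (-a) * (x ^ (2 * a) * Real.exp (-x))) := by rw [e1, e2]; ring
      _ ≤ (M : ℝ) ^ a * (((2 : ℝ) ^ d) ^ (-a) * (⌈2 * a⌉₊.factorial : ℝ)) := by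
          refine mul_le_mul_of_nonneg_left ?_ hMa.le
          exact mul_le_mul h2 h1 (mul_nonneg (Real.rpow_nonneg hx0.le _) (Real.exp_pos _).le) h4
      _ = _ := by ring

/-- the weight on a dyadic block -/
theorem wb (c : ℝ) (M : ℕ) (hM : 1 ≤ M) (m : ℕ) :
    (1 - 1 / (M : ℝ)) ^ m * ((m : ℝ) + 1) ^ c ≤
      Real.exp 1 * 2 ^ |c| * (((2 : ℝ) ^ Nat.log 2 (m + 1)) ^ c *
        Real.exp (-(2 ^ Nat.log 2 (m + 1) / (M : ℝ)))) := by
  set i := Nat.log 2 (m + 1) with hi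
  have hi1 : 2 ^ i ≤ m + 1 := Nat.pow_log_le_self 2 (by omega)
  have hi2 : m + 1 < 2 ^ (i + 1) := Nat.lt_pow_succ_log_self (by norm_num) _
  have hi1' : (2 : ℝ) ^ i ≤ (m : ℝ) + 1 := by exact_mod_cast hi1
  have hi2' : (m : ℝ) + 1 ≤ 2 ^ (i + 1) := by exact_mod_cast hi2.le
  have hM0 : (0 : ℝ) < M := by exact_mod_cast hM
  have hM1 : (1 : ℝ) ≤ M := by exact_mod_cast hM
  have hx : (0 : ℝ) < (m : ℝ) + 1 := by positivity
  have h2i : (0 : ℝ) < 2 ^ i := by positivity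
  have hr0 : 0 ≤ 1 - 1 / (M : ℝ) := by
    have : 1 / (M : ℝ) ≤ 1 := by rw [div_le_one hM0]; exact hM1
    linarith
  have h1 : (1 - 1 / (M : ℝ)) ^ m ≤ Real.exp 1 * Real.exp (-(2 ^ i / (M : ℝ))) := by
    have g1 : 1 - 1 / (M : ℝ) ≤ Real.exp (-(1 / (M : ℝ))) := by
      have := Real.add_one_le_exp (-(1 / (M : ℝ)))
      linarith
    calc (1 - 1 / (M : ℝ)) ^ m ≤ Real.exp (-(1 / (M : ℝ))) ^ m := pow_le_pow_left₀ hr0 g1 m
      _ = Real.exp (m * (-(1 / (M : ℝ)))) := by rw [← Real.exp_nat_mul]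
      _ ≤ Real.exp (1 + -(2 ^ i / (M : ℝ))) := by
          apply Real.exp_le_exp.2
          have g2 : (2 ^ i - 1) / (M : ℝ) ≤ m / (M : ℝ) :=
            div_le_div_of_nonneg_right (by linarith) hM0.le
          have g3 : 1 / (M : ℝ) ≤ 1 := by rw [div_le_one hM0]; exact hM1
          have g4 : (2 ^ i - 1) / (M : ℝ) = 2 ^ i / (M : ℝ) - 1 / M := by ring
          have g5 : (m : ℝ) * (-(1 / (M : ℝ))) = -(m / (M : ℝ)) := by ring
          linarith
      _ = _ := Real.exp_add _ _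
  have h2 : ((m : ℝ) + 1) ^ c ≤ 2 ^ |c| * ((2 : ℝ) ^ i) ^ c := by
    rcases le_total 0 c with hc | hc
    · rw [abs_of_nonneg hc, ← Real.mul_rpow (by norm_num) h2i.le]
      refine Real.rpow_le_rpow hx.le ?_ hc
      rw [pow_succ] at hi2'
      linarith
    · have g1 : ((m : ℝ) + 1) ^ c ≤ ((2 : ℝ) ^ i) ^ c := Real.rpow_le_rpow_of_nonpos h2i hi1' hc
      have g2 : (1 : ℝ) ≤ 2 ^ |c| := Real.one_le_rpow (by norm_num) (abs_nonneg c)
      have g3 : 0 ≤ ((2 : ℝ) ^ i) ^ c := Real.rpow_nonneg h2i.le _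
      have g4 := mul_le_mul_of_nonneg_right g2 g3
      linarith
  calc (1 - 1 / (M : ℝ)) ^ m * ((m : ℝ) + 1) ^ c
      ≤ (Real.exp 1 * Real.exp (-(2 ^ i / (M : ℝ)))) * (2 ^ |c| * ((2 : ℝ) ^ i) ^ c) :=
        mul_le_mul h1 h2 (Real.rpow_nonneg hx.le _) (by positivity)
    _ = _ := by ring

end PsAux

open PsAux in
theorem ps : S_PS := by
  intro Y C E c hY hC hE hEc hA
  set θ : ℝ := (2 : ℝ) ^ (-(E + c)) with hθ
  have hθ0 : 0 ≤ θ := Real.rpow_nonneg (by norm_num) _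
  have hθ1 : θ < 1 := Real.rpow_lt_one_of_one_lt_of_neg (by norm_num) (by linarith)
  set F : ℝ := (⌈2 * (E + c)⌉₊.factorial : ℝ) with hF
  have hF0 : 0 ≤ F := by positivity
  have h1θ : 0 < 1 - θ := by linarith
  refine ⟨Real.exp 1 * 2 ^ |c| * 2 ^ E * C * F * (2 / (1 - θ)), by positivity, fun M hM => ?_⟩
  have hM0 : (0 : ℝ) < M := by
    have : 0 < M := by omega
    exact_mod_cast this
  have hM1 : (1 : ℝ) ≤ M := by
    have : 1 ≤ M := by omega
    exact_mod_cast this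
  have hr0 : 0 ≤ 1 - 1 / (M : ℝ) := by
    have : 1 / (M : ℝ) ≤ 1 := by rw [div_le_one hM0]; exact hM1
    linarith
  refine ENNReal.tsum_le_of_sum_range_le fun N => ?_
  have hw : ∀ m : ℕ, 0 ≤ ((m : ℝ) + 1) ^ c := fun m => Real.rpow_nonneg (by positivity) _
  rw [← ENNReal.ofReal_sum_of_nonneg fun m _ =>
    mul_nonneg (pow_nonneg hr0 m) (mul_nonneg (hw m) (hY m))]
  refine ENNReal.ofReal_le_ofReal ?_
  set A : ℕ → ℝ := fun i => Real.exp 1 * 2 ^ |c| * (((2 : ℝ) ^ i) ^ c *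
        Real.exp (-(2 ^ i / (M : ℝ)))) with hAdef
  have hA0 : ∀ i, 0 ≤ A i := by
    intro i
    have h1 : 0 ≤ ((2 : ℝ) ^ i) ^ c := Real.rpow_nonneg (by positivity) _
    have h2 : (0 : ℝ) ≤ 2 ^ |c| := Real.rpow_nonneg (by norm_num) _
    exact mul_nonneg (mul_nonneg (Real.exp_pos _).le h2) (mul_nonneg h1 (Real.exp_pos _).le)
  have hstep1 : ∀ m ∈ Finset.range N, (1 - 1 / (M : ℝ)) ^ m * (((m : ℝ) + 1) ^ c * Y m) ≤
      ∑ i ∈ Finset.range N, (if m < 2 ^ (i + 1) then A i * Y m else 0) := by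
    intro m hm
    rw [Finset.mem_range] at hm
    have h1 := wb c M (by omega) m
    have h2 : Nat.log 2 (m + 1) ∈ Finset.range N := by
      rw [Finset.mem_range]
      have h3 : m + 1 < 2 ^ N := lt_of_le_of_lt (by omega : m + 1 ≤ N) Nat.lt_two_pow_self
      exact Nat.log_lt_of_lt_pow (by omega) h3
    have h3 : (if m < 2 ^ (Nat.log 2 (m + 1) + 1) then A (Nat.log 2 (m + 1)) * Y m else 0) ≤
        ∑ i ∈ Finset.range N, (if m < 2 ^ (i + 1) then A i * Y m else 0) := by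
      refine Finset.single_le_sum (f := fun i => if m < 2 ^ (i + 1) then A i * Y m else 0)
        (fun i _ => ?_) h2
      split_ifs
      · exact mul_nonneg (hA0 i) (hY m)
      · exact le_rfl
    have h4 : m < 2 ^ (Nat.log 2 (m + 1) + 1) := by
      have : m + 1 < 2 ^ (Nat.log 2 (m + 1) + 1) := Nat.lt_pow_succ_log_self (by norm_num) _
      omega
    rw [if_pos h4] at h3
    refine le_trans ?_ h3
    rw [← mul_assoc]
    exact mul_le_mul_of_nonneg_right h1 (hY m)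
  have hstep2 : ∀ i ∈ Finset.range N,
      ∑ m ∈ Finset.range N, (if m < 2 ^ (i + 1) then A i * Y m else 0) ≤
        Real.exp 1 * 2 ^ |c| * 2 ^ E * C * (((2 : ℝ) ^ i) ^ (E + c) *
          Real.exp (-(2 ^ i / (M : ℝ)))) := by
    intro i _
    have h1 : ∑ m ∈ Finset.range N, (if m < 2 ^ (i + 1) then A i * Y m else 0) ≤
        ∑ m ∈ Finset.range (2 ^ (i + 1)), A i * Y m := by
      rw [← Finset.sum_filter]
      refine Finset.sum_le_sum_of_subset_of_nonneg (fun m hm => ?_)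
        (fun m _ _ => mul_nonneg (hA0 i) (hY m))
      rw [Finset.mem_filter] at hm
      exact Finset.mem_range.2 hm.2
    rw [← Finset.mul_sum] at h1
    have h2 := hA (2 ^ (i + 1)) Nat.one_le_two_pow
    have h3 := mul_le_mul_of_nonneg_left h2 (hA0 i)
    refine h1.trans (h3.trans (le_of_eq ?_))
    have h2i : (0 : ℝ) < 2 ^ i := by positivity
    have e1 : (((2 ^ (i + 1) : ℕ) : ℝ)) ^ E = 2 ^ E * ((2 : ℝ) ^ i) ^ E := by
      push_cast
      rw [pow_succ, mul_comm ((2 : ℝ) ^ i) 2, Real.mul_rpow (by norm_num) h2i.le]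
    rw [e1, Real.rpow_add h2i, hAdef]
    ring
  calc ∑ m ∈ Finset.range N, (1 - 1 / (M : ℝ)) ^ m * (((m : ℝ) + 1) ^ c * Y m)
      ≤ ∑ m ∈ Finset.range N, ∑ i ∈ Finset.range N,
          (if m < 2 ^ (i + 1) then A i * Y m else 0) := Finset.sum_le_sum hstep1
    _ = ∑ i ∈ Finset.range N, ∑ m ∈ Finset.range N,
          (if m < 2 ^ (i + 1) then A i * Y m else 0) := Finset.sum_comm
    _ ≤ ∑ i ∈ Finset.range N, Real.exp 1 * 2 ^ |c| * 2 ^ E * C * (((2 : ℝ) ^ i) ^ (E + c) *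
          Real.exp (-(2 ^ i / (M : ℝ)))) := Finset.sum_le_sum hstep2
    _ ≤ ∑ i ∈ Finset.range N, Real.exp 1 * 2 ^ |c| * 2 ^ E * C * (F * (M : ℝ) ^ (E + c) *
          (if i ≤ Nat.log 2 M then θ ^ (Nat.log 2 M - i) else θ ^ (i - Nat.log 2 M - 1))) := by
        refine Finset.sum_le_sum fun i _ => ?_
        refine mul_le_mul_of_nonneg_left (term (E + c) hEc M (by omega) i) ?_
        positivity
    _ = Real.exp 1 * 2 ^ |c| * 2 ^ E * C * (F * (M : ℝ) ^ (E + c)) * ∑ i ∈ Finset.range N,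
          (if i ≤ Nat.log 2 M then θ ^ (Nat.log 2 M - i) else θ ^ (i - Nat.log 2 M - 1)) := by
        rw [Finset.mul_sum]
        refine Finset.sum_congr rfl fun i _ => ?_
        ring
    _ ≤ Real.exp 1 * 2 ^ |c| * 2 ^ E * C * (F * (M : ℝ) ^ (E + c)) * (2 / (1 - θ)) := by
        refine mul_le_mul_of_nonneg_left (geo θ hθ0 hθ1 _ _) ?_
        positivity
    _ = _ := by ring

end Pool.Agent.H64.SL
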