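import Pool.Agent.H64.SL.Stm

set_option autoImplicit false

/-! # SL-WAR: the weighted sum of the area inequalities (copy of H7/SZ/WAR.lean by helper90) -/

namespace Pool.Agent.H64.SL

open Metric Set Filter Topology MeasureTheory
open scoped ENNReal
open Pool.Agent.H64.CX (bt rr TP TN GD)

theorem WARh.tri (G : ℕ → ℕ → ℝ≥0∞) :
    ∑' j : ℕ, ∑ k ∈ Finset.Icc 1 j, G k (j - k) ≤ ∑' k : ℕ, ∑' m : ℕ, G k m := by
  have h1 : ∀ j : ℕ, ∑ k ∈ Finset.Icc 1 j, G k (j - k) ≤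
      ∑' k : ℕ, if k ≤ j then G k (j - k) else 0 := by
    intro j
    have h2 : ∑ k ∈ Finset.Icc 1 j, G k (j - k) =
        ∑ k ∈ Finset.Icc 1 j, if k ≤ j then G k (j - k) else 0 :=
      Finset.sum_congr rfl fun k hk => by rw [if_pos (Finset.mem_Icc.1 hk).2]
    rw [h2]
    exact ENNReal.sum_le_tsum _
  refine (ENNReal.tsum_le_tsum h1).trans ?_
  rw [ENNReal.tsum_comm]
  apply ENNReal.tsum_le_tsum
  intro k
  have h3 := Summable.sum_add_tsum_nat_add' (f := fun j : ℕ => if k ≤ j then G k (j - k) else 0)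
    (k := k) ENNReal.summable
  rw [← h3]
  have h4 : ∑ j ∈ Finset.range k, (if k ≤ j then G k (j - k) else 0) = 0 := by
    apply Finset.sum_eq_zero
    intro j hj
    rw [Finset.mem_range] at hj
    rw [if_neg (by omega)]
  rw [h4, zero_add]
  apply le_of_eq
  apply tsum_congr
  intro m
  rw [if_pos (by omega), Nat.add_sub_cancel]

theorem WARh.antidiag (f : ℕ → ℕ → ℝ≥0∞) :
    ∑' m : ℕ, ∑ n ∈ Finset.range (m + 1), f n (m - n) = ∑' n : ℕ, ∑' j : ℕ, f n j := by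
  have h1 : ∑' n : ℕ, ∑' j : ℕ, f n j = ∑' p : ℕ × ℕ, f p.1 p.2 :=
    (ENNReal.tsum_prod (f := f)).symm
  have h2 := (Finset.HasAntidiagonal.sigmaAntidiagonalEquivProd (A := ℕ)).tsum_eq
    (fun p : ℕ × ℕ => f p.1 p.2)
  rw [h1, ← h2, ENNReal.tsum_sigma']
  refine tsum_congr fun m => ?_
  rw [tsum_fintype, Finset.univ_eq_attach]
  simp only [Finset.HasAntidiagonal.sigmaAntidiagonalEquivProd_apply]
  rw [Finset.sum_attach (Finset.HasAntidiagonal.antidiagonal m) (fun p => f p.1 p.2),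
    Finset.Nat.sum_antidiagonal_eq_sum_range_succ (f := f)]

theorem WARh.w_nonneg (μ : ℝ) (j : ℕ) : 0 ≤ wt μ j := by
  unfold wt
  exact Real.rpow_nonneg (by positivity) _

theorem war : S_WAR := by
  intro s μ ν hs0 hs1 H ρ hρ
  obtain ⟨P, hP⟩ : ∃ P : ℕ → ℕ → ℝ≥0∞, P = fun (n j : ℕ) =>
    ENNReal.ofReal (((n : ℝ) + s) * ‖TP (-(s : ℂ)) ν n (n + j)‖ ^ 2) := ⟨_, rfl⟩
  obtain ⟨Q, hQ⟩ : ∃ Q : ℕ → ℕ → ℝ≥0∞, Q = fun (k m : ℕ) =>
    ENNReal.ofReal (((k : ℝ) - s) * ‖TN (-(s : ℂ)) ν k m‖ ^ 2) := ⟨_, rfl⟩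
  obtain ⟨f, hf⟩ : ∃ f : ℕ → ℕ → ℝ≥0∞, f = fun n j =>
    if j = 0 then 0 else ENNReal.ofReal (ρ ^ j * wt μ j) * P n j := ⟨_, rfl⟩
  obtain ⟨G, hG⟩ : ∃ G : ℕ → ℕ → ℝ≥0∞, G = fun k m =>
    ENNReal.ofReal (ρ ^ (m + k) * wt μ (m + k)) * Q k m := ⟨_, rfl⟩
  have hρ0 := hρ.1.le
  have hρ1 := hρ.2.le
  -- the left side
  have hleft : ∑' m : ℕ, ENNReal.ofReal (ρ ^ m * LL s μ ν m) ≤ ∑' n : ℕ, ∑' j : ℕ, f n j := by
    rw [← WARh.antidiag f]
    refine ENNReal.tsum_le_tsum fun m => ?_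
    have h1 : ρ ^ m * LL s μ ν m = ∑ n ∈ Finset.range m,
        ρ ^ m * (((n : ℝ) + s) * wt μ (m - n) * ‖TP (-(s : ℂ)) ν n m‖ ^ 2) := by
      unfold LL
      rw [Finset.mul_sum]
    rw [h1, ENNReal.ofReal_sum_of_nonneg]
    · calc ∑ n ∈ Finset.range m, ENNReal.ofReal
            (ρ ^ m * (((n : ℝ) + s) * wt μ (m - n) * ‖TP (-(s : ℂ)) ν n m‖ ^ 2)) ≤
            ∑ n ∈ Finset.range m, f n (m - n) := by
            refine Finset.sum_le_sum fun n hn => ?_
            rw [Finset.mem_range] at hn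
            have h2 : m - n ≠ 0 := by omega
            have h3 : n + (m - n) = m := by omega
            have h5 := WARh.w_nonneg μ (m - n)
            rw [hf, hP]
            simp only
            rw [if_neg h2, h3, ← ENNReal.ofReal_mul (mul_nonneg (pow_nonneg hρ0 _) h5)]
            apply ENNReal.ofReal_le_ofReal
            have h6 : ρ ^ m ≤ ρ ^ (m - n) := pow_le_pow_of_le_one hρ0 hρ1 (Nat.sub_le m n)
            calc ρ ^ m * (((n : ℝ) + s) * wt μ (m - n) * ‖TP (-(s : ℂ)) ν n m‖ ^ 2) ≤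
                ρ ^ (m - n) * (((n : ℝ) + s) * wt μ (m - n) * ‖TP (-(s : ℂ)) ν n m‖ ^ 2) :=
                  mul_le_mul_of_nonneg_right h6 (by positivity)
              _ = _ := by ring
        _ ≤ ∑ n ∈ Finset.range (m + 1), f n (m - n) := by
            apply Finset.sum_le_sum_of_subset
            intro n hn
            rw [Finset.mem_range] at hn ⊢
            omega
    · intro n _
      have h5 := WARh.w_nonneg μ (m - n)
      have h6 := pow_nonneg hρ0 m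
      positivity
  -- the area inequalities
  have hmid : ∑' n : ℕ, ∑' j : ℕ, f n j ≤ ∑' k : ℕ, ∑' m : ℕ, G k m := by
    rw [ENNReal.tsum_comm]
    refine (ENNReal.tsum_le_tsum fun j => ?_).trans (WARh.tri G)
    by_cases hj : j = 0
    · rw [hf]
      simp [hj]
    · have hj1 : 1 ≤ j := Nat.one_le_iff_ne_zero.2 hj
      have h1 : ∑' n : ℕ, f n j = ENNReal.ofReal (ρ ^ j * wt μ j) * ∑' n : ℕ, P n j := by
        rw [← ENNReal.tsum_mul_left]
        refine tsum_congr fun n => ?_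
        rw [hf]
        simp only
        rw [if_neg hj]
      have h2 : ∑' n : ℕ, P n j ≤ ∑ k ∈ Finset.Icc 1 j, Q k (j - k) := by
        refine ENNReal.tsum_le_of_sum_range_le fun N => ?_
        have h3 := ENNReal.ofReal_le_ofReal (H j N hj1)
        rw [ENNReal.ofReal_sum_of_nonneg (fun n _ => by positivity),
          ENNReal.ofReal_sum_of_nonneg (fun k hk => by
            have h4 : (1 : ℝ) ≤ k := by exact_mod_cast (Finset.mem_Icc.1 hk).1
            have h5 : 0 ≤ (k : ℝ) - s := by linarith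
            positivity)] at h3
        rw [hP, hQ]
        exact h3
      rw [h1]
      refine (mul_le_mul_right h2 _).trans (le_of_eq ?_)
      rw [Finset.mul_sum]
      refine Finset.sum_congr rfl fun k hk => ?_
      rw [Finset.mem_Icc] at hk
      have e1 : j - k + k = j := by omega
      rw [hG]
      simp only
      rw [e1]
  -- the right side
  have hright : ∑' k : ℕ, ∑' m : ℕ, G k m ≤ ∑' m : ℕ, ENNReal.ofReal (ρ ^ m) * RR s μ ν m := by
    rw [ENNReal.tsum_comm]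
    refine ENNReal.tsum_le_tsum fun m => ?_
    have h0 : G 0 m = 0 := by
      rw [hG, hQ]
      simp only
      have : ((0 : ℕ) : ℝ) - s ≤ 0 := by rw [Nat.cast_zero]; linarith
      rw [ENNReal.ofReal_of_nonpos (mul_nonpos_of_nonpos_of_nonneg this (sq_nonneg _)), mul_zero]
    rw [tsum_eq_zero_add' ENNReal.summable, h0, zero_add]
    unfold RR
    rw [← ENNReal.tsum_mul_left]
    refine ENNReal.tsum_le_tsum fun k => ?_
    rw [hG, hQ]
    simp only
    have h5 := WARh.w_nonneg μ (m + (k + 1))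
    rw [← ENNReal.ofReal_mul (mul_nonneg (pow_nonneg hρ0 _) h5),
      ← ENNReal.ofReal_mul (pow_nonneg hρ0 _)]
    apply ENNReal.ofReal_le_ofReal
    have h6 : ρ ^ (m + (k + 1)) ≤ ρ ^ m :=
      pow_le_pow_of_le_one hρ0 hρ1 (Nat.le_add_right m (k + 1))
    have e2 : ((k + 1 : ℕ) : ℝ) - s = (k : ℝ) + 1 - s := by push_cast; ring
    have h7 : 0 ≤ (k : ℝ) + 1 - s := by
      have : (0 : ℝ) ≤ k := Nat.cast_nonneg k
      linarith
    rw [e2, ← add_assoc]
    rw [← add_assoc] at h5 h6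
    calc ρ ^ (m + k + 1) * wt μ (m + k + 1) * (((k : ℝ) + 1 - s) * ‖TN (-(s : ℂ)) ν (k + 1) m‖ ^ 2) =
        ρ ^ (m + k + 1) * (((k : ℝ) + 1 - s) * wt μ (m + k + 1) * ‖TN (-(s : ℂ)) ν (k + 1) m‖ ^ 2) := by ring
      _ ≤ _ := mul_le_mul_of_nonneg_right h6 (mul_nonneg (mul_nonneg h7 h5) (sq_nonneg _))
  exact hleft.trans (hmid.trans hright)

end Pool.Agent.H64.SL
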